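import Pool.Agent.Helper66x.AK.Weights

/-!
# Weighted inequality for sets of real vectors; the dimensions
-/

set_option autoImplicit false

open Finset Filter Topology

namespace Pool.Agent.Helper66x.AK

open Pool.Agent.W46.KK Pool.Agent.V11295.ProgAny

/-- **Every scale, different sets for the terms.** -/
theorem real_sets_w {k : ℕ} (hk : 2 ≤ k) {f : ℝ} (hf0 : 0 < f) {w : Fin k → ℝ}
    (hw0 : ∀ j, 0 ≤ w j) (hw1 : ∑ j, w j = 1)
    (hV : ∀ v ∈ V k f, 0 ≤ ∑ j, w j * v j) (n : ℕ) :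
    ∃ C : ℝ, 0 < C ∧ ∀ (R : Set (EuclideanSpace ℝ (Fin n)))
      (B : Fin k → Set (EuclideanSpace ℝ (Fin n))), (∀ j, Bornology.IsBounded (B j)) →
      (∀ r ∈ R, ∃ a : EuclideanSpace ℝ (Fin n), ∀ j : Fin k, a + ((j : ℕ) : ℝ) • r ∈ B j) →
      ∀ δ : ℝ, 0 < δ →
        (coverNum R δ : ℝ) ^ f ≤ C * ∏ j, (coverNum (B j) δ : ℝ) ^ w j := by
  classical
  refine ⟨((((4 * (n + 1)) ^ n : ℕ) : ℝ)) ^ f * (((3 * k) ^ n : ℕ) : ℝ), ?_, ?_⟩
  · have h1 : 0 < (4 * (n + 1)) ^ n := by positivity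
    have h2 : 0 < (3 * k) ^ n := by positivity
    have h3 : (0 : ℝ) < (((4 * (n + 1)) ^ n : ℕ) : ℝ) := by exact_mod_cast h1
    have h4 : (0 : ℝ) < (((3 * k) ^ n : ℕ) : ℝ) := by exact_mod_cast h2
    positivity
  intro R B hB hR δ hδ
  have hRb : Bornology.IsBounded R := by
    refine ((hB ⟨1, by omega⟩).sub (hB ⟨0, by omega⟩)).subset fun r hr => ?_
    obtain ⟨a, ha⟩ := hR r hr
    have h0 := ha ⟨0, by omega⟩
    have h1 := ha ⟨1, by omega⟩
    refine Set.mem_sub.mpr ⟨_, h1, _, h0, ?_⟩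
    push_cast
    module
  choose Z hZ1 hZ2 hZ3 using fun j => cells_of_cover (hB j) hδ
  obtain ⟨Y, hY1, hY2, -⟩ := cells_of_cover hRb hδ
  have hcov : coverNum R δ ≤ (4 * (n + 1)) ^ n * Y.card := by
    rw [mul_comm]
    refine (coverNum_le hδ (Y.image fun z => WithLp.toLp 2 fun i => (z i : ℝ) * δ)
      fun r hr => ⟨WithLp.toLp 2 fun i => (⌊r i / δ⌋ : ℝ) * δ,
        Finset.mem_image.mpr ⟨_, hY1 r hr, rfl⟩, fun i => ?_⟩).trans
      (Nat.mul_le_mul_right _ Finset.card_image_le)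
    have h2 := Int.floor_le (r i / δ)
    have h3 := Int.lt_floor_add_one (r i / δ)
    rw [le_div_iff₀ hδ] at h2
    rw [div_lt_iff₀ hδ] at h3
    change |r i - (⌊r i / δ⌋ : ℝ) * δ| < 2 * δ
    rw [abs_lt]
    constructor <;> linarith
  have hprod0 : 0 ≤ ∏ j, (coverNum (B j) δ : ℝ) ^ w j :=
    Finset.prod_nonneg fun j _ => Real.rpow_nonneg (Nat.cast_nonneg _) _
  rcases Y.eq_empty_or_nonempty with hY | hY
  · rw [hY, Finset.card_empty, mul_zero] at hcov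
    have h1 : coverNum R δ = 0 := Nat.le_zero.mp hcov
    rw [h1, Nat.cast_zero, Real.zero_rpow hf0.ne']
    positivity
  set D : Fin k → Finset (Fin n → ℤ) := fun l =>
    (Z l ×ˢ (Fintype.piFinset fun _ : Fin n => Finset.range k)).image fun q =>
      fun i => q.1 i - (q.2 i : ℤ) with hD
  have hDc : ∀ l, (D l).card ≤ (3 * k) ^ n * coverNum (B l) δ := by
    intro l
    refine Finset.card_image_le.trans ?_
    rw [Finset.card_product, Fintype.card_piFinset, Finset.prod_const, Finset.card_univ,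
      Fintype.card_fin, Finset.card_range]
    calc (Z l).card * k ^ n ≤ (3 ^ n * coverNum (B l) δ) * k ^ n :=
          Nat.mul_le_mul_right _ (hZ3 l)
      _ = (3 * k) ^ n * coverNum (B l) δ := by rw [mul_pow]; ring
  have h1 := weighted hw1 hV Y D hY (by
    intro z hz
    obtain ⟨r, hr, rfl⟩ := hY2 z hz
    obtain ⟨a, ha⟩ := hR r hr
    refine ⟨fun i => ⌊a i / δ⌋, fun l => ?_⟩
    have h2 := hZ1 l _ (ha l)
    have h3 : ∀ i, (a + ((l : ℕ) : ℝ) • r) i / δ = a i / δ + (l : ℕ) * (r i / δ) := by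
      intro i
      simp only [PiLp.add_apply, PiLp.smul_apply, smul_eq_mul]
      ring
    have h4 : ∀ i, 0 ≤ ⌊(a + ((l : ℕ) : ℝ) • r) i / δ⌋ - (⌊a i / δ⌋ + (l : ℕ) * ⌊r i / δ⌋) ∧
        ⌊(a + ((l : ℕ) : ℝ) • r) i / δ⌋ - (⌊a i / δ⌋ + (l : ℕ) * ⌊r i / δ⌋) ≤ (l : ℕ) := by
      intro i
      rw [h3]
      exact floor_prog (a i / δ) (r i / δ) l
    have hl := l.2
    refine Finset.mem_image.mpr ⟨(fun i => ⌊(a + ((l : ℕ) : ℝ) • r) i / δ⌋, fun i =>
      (⌊(a + ((l : ℕ) : ℝ) • r) i / δ⌋ - (⌊a i / δ⌋ + (l : ℕ) * ⌊r i / δ⌋)).toNat),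
      Finset.mem_product.mpr ⟨h2, Fintype.mem_piFinset.mpr fun i => ?_⟩, funext fun i => ?_⟩
    · have h5 := h4 i
      rw [Finset.mem_range]
      change (⌊(a + ((l : ℕ) : ℝ) • r) i / δ⌋ -
        (⌊a i / δ⌋ + (l : ℕ) * ⌊r i / δ⌋)).toNat < k
      omega
    · change ⌊(a + ((l : ℕ) : ℝ) • r) i / δ⌋ -
        ((⌊(a + ((l : ℕ) : ℝ) • r) i / δ⌋ -
          (⌊a i / δ⌋ + (l : ℕ) * ⌊r i / δ⌋)).toNat : ℤ) =
        ⌊a i / δ⌋ + ((l : ℕ) • fun i => ⌊r i / δ⌋) i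
      rw [Int.toNat_of_nonneg (h4 i).1, Pi.smul_apply, nsmul_eq_mul]
      ring)
  have hA0 : (0 : ℝ) ≤ (((3 * k) ^ n : ℕ) : ℝ) := Nat.cast_nonneg _
  have h2 : ∏ l, ((D l).card : ℝ) ^ w l ≤
      (((3 * k) ^ n : ℕ) : ℝ) * ∏ j, (coverNum (B j) δ : ℝ) ^ w j := by
    calc ∏ l, ((D l).card : ℝ) ^ w l ≤
          ∏ l, ((((3 * k) ^ n : ℕ) : ℝ) * (coverNum (B l) δ : ℝ)) ^ w l := by
          refine Finset.prod_le_prod (fun l _ => Real.rpow_nonneg (Nat.cast_nonneg _) _)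
            fun l _ => Real.rpow_le_rpow (Nat.cast_nonneg _) ?_ (hw0 l)
          exact_mod_cast hDc l
      _ = ∏ l, (((((3 * k) ^ n : ℕ) : ℝ)) ^ w l * (coverNum (B l) δ : ℝ) ^ w l) := by
          refine Finset.prod_congr rfl fun l _ => ?_
          rw [Real.mul_rpow hA0 (Nat.cast_nonneg _)]
      _ = _ := by
          rw [Finset.prod_mul_distrib]
          congr 1
          have hApos : (0 : ℝ) < (((3 * k) ^ n : ℕ) : ℝ) := by
            have : 0 < (3 * k) ^ n := by positivity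
            exact_mod_cast this
          rw [← Real.rpow_sum_of_pos hApos, hw1, Real.rpow_one]
  calc (coverNum R δ : ℝ) ^ f ≤ ((((4 * (n + 1)) ^ n : ℕ) : ℝ) * (Y.card : ℝ)) ^ f := by
        refine Real.rpow_le_rpow (Nat.cast_nonneg _) ?_ hf0.le
        exact_mod_cast hcov
    _ = ((((4 * (n + 1)) ^ n : ℕ) : ℝ)) ^ f * (Y.card : ℝ) ^ f :=
        Real.mul_rpow (Nat.cast_nonneg _) (Nat.cast_nonneg _)
    _ ≤ ((((4 * (n + 1)) ^ n : ℕ) : ℝ)) ^ f *
        ((((3 * k) ^ n : ℕ) : ℝ) * ∏ j, (coverNum (B j) δ : ℝ) ^ w j) :=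
        mul_le_mul_of_nonneg_left (h1.trans h2) (Real.rpow_nonneg (Nat.cast_nonneg _) _)
    _ = _ := by ring

/-- the Assouad dimension -/
noncomputable def assouad {n : ℕ} (B : Set (EuclideanSpace ℝ (Fin n))) : EReal :=
  ⨅ (s : ℝ) (_ : 0 ≤ s) (_ : AssouadLE s B), (s : EReal)

theorem upper_le_assouad {n : ℕ} {B : Set (EuclideanSpace ℝ (Fin n))}
    (hB : Bornology.IsBounded B) : upperMinkowski B ≤ assouad B :=
  le_iInf fun _ => le_iInf fun hs => le_iInf fun h => upper_le_of_assouad hB hs h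

theorem assouad_le {n : ℕ} {B : Set (EuclideanSpace ℝ (Fin n))} {s : ℝ} (hs : 0 ≤ s)
    (h : AssouadLE s B) : assouad B ≤ (s : EReal) :=
  iInf_le_of_le s (iInf_le_of_le hs (iInf_le_of_le h le_rfl))

/-- the least lower Minkowski dimension -/
noncomputable def fL (n k : ℕ) : EReal :=
  ⨅ (B : Set (EuclideanSpace ℝ (Fin n))) (_ : Bornology.IsBounded B)
    (_ : HasProgressions k B), Pool.Agent.V11295.ProgAny.lowerMinkowski B

/-- the least Assouad dimension -/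
noncomputable def fA (n k : ℕ) : EReal :=
  ⨅ (B : Set (EuclideanSpace ℝ (Fin n))) (_ : Bornology.IsBounded B)
    (_ : HasProgressions k B), assouad B

/-- sets of small Assouad dimension -/
theorem exists_small {k : ℕ} (hk : 2 ≤ k) {f : ℝ} (hf0 : 0 ≤ f)
    (hsharp : ∀ s : ℝ, f < s → ∀ M₀ : ℕ, ∃ M : ℕ, 2 ≤ M ∧ M₀ ≤ M ∧ ∃ Δ : Finset ℤ, Prog k M Δ ∧
      (Δ.card : ℝ) ≤ (M : ℝ) ^ s) (n : ℕ) {s : ℝ} (hs : n * f < s) :
    ∃ B : Set (EuclideanSpace ℝ (Fin n)), IsCompact B ∧ HasProgressions k B ∧ AssouadLE s B := by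
  set τ : ℝ := f + (s - n * f) / (n + 1) with hτ
  have h1 : 0 < s - n * f := by linarith
  have h2 : f < τ := by
    have : 0 < (s - n * f) / (n + 1) := by positivity
    linarith
  obtain ⟨M, hM, -, Δ, hΔ, hc⟩ := hsharp τ h2 0
  refine ⟨cubeOf n (K M Δ), cubeOf_compact n (K_compact hM Δ),
    cubeOf_prog n fun x hx0 hx1 => K_prog hM (by omega) hΔ hx0 hx1, ?_⟩
  refine assouad_K n hM (τ := τ) (by linarith) ?_ hc
  have h3 : n * ((s - n * f) / (n + 1)) ≤ s - n * f := by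
    rw [mul_div_assoc', div_le_iff₀ (by positivity)]
    nlinarith
  rw [hτ, mul_add]
  linarith

/-- the three infima -/
theorem infima {k : ℕ} (hk : 2 ≤ k) {f : ℝ} (hf0 : 0 < f)
    (hf : ∀ M : ℕ, 2 ≤ M → ∀ Δ : Finset ℤ, Prog k M Δ → (M : ℝ) ^ f ≤ Δ.card)
    (hsharp : ∀ s : ℝ, f < s → ∀ M₀ : ℕ, ∃ M : ℕ, 2 ≤ M ∧ M₀ ≤ M ∧ ∃ Δ : Finset ℤ, Prog k M Δ ∧
      (Δ.card : ℝ) ≤ (M : ℝ) ^ s) (n : ℕ) :
    fL n k = ((n * f : ℝ) : EReal) ∧ fM n k = ((n * f : ℝ) : EReal) ∧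
      fA n k = ((n * f : ℝ) : EReal) := by
  have h1 : ((n * f : ℝ) : EReal) ≤ fL n k := by
    refine le_iInf fun B => le_iInf fun hB => le_iInf fun hP => ?_
    obtain ⟨C, hC, h⟩ := real_sets hk hf0 hf n
    have h2 := lower_of (c := 1 / f) (by positivity) hC
      (h (cube n) B hB fun r hr => hP r hr) n (cube_dim n)
    have h3 : (n : ℝ) / (1 / f) = n * f := by field_simp
    rwa [h3] at h2
  have h2 : fL n k ≤ fM n k := by
    refine le_iInf fun B => le_iInf fun hB => le_iInf fun hP => ?_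
    exact iInf_le_of_le B (iInf_le_of_le hB (iInf_le_of_le hP (lower_le_upper B)))
  have h3 : fM n k ≤ fA n k := by
    refine le_iInf fun B => le_iInf fun hB => le_iInf fun hP => ?_
    exact iInf_le_of_le B (iInf_le_of_le hB (iInf_le_of_le hP (upper_le_assouad hB)))
  have h4 : fA n k ≤ ((n * f : ℝ) : EReal) := by
    refine le_of_forall_gt fun x hx => ?_
    obtain ⟨y, hy, hyx⟩ := EReal.lt_iff_exists_real_btwn.mp hx
    have hy' : n * f < y := by exact_mod_cast hy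
    obtain ⟨B, hB1, hB2, hB3⟩ := exists_small hk hf0.le hsharp n hy'
    refine lt_of_le_of_lt ?_ hyx
    have hy0 : 0 ≤ y := (by positivity : 0 ≤ n * f).trans hy'.le
    exact iInf_le_of_le B (iInf_le_of_le hB1.isBounded (iInf_le_of_le hB2 (assouad_le hy0 hB3)))
  exact ⟨le_antisymm (h2.trans (h3.trans h4)) h1, le_antisymm (h3.trans h4) (h1.trans h2),
    le_antisymm h4 (h1.trans (h2.trans h3))⟩

end Pool.Agent.Helper66x.AK
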