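import Pool.Agent.Helper66x.AK.Prod

/-!
# From sets of real numbers to digits, and the exponent
-/

set_option autoImplicit false

open Finset Filter Topology

namespace Pool.Agent.Helper66x.AK

open Pool.Agent.W46.KK Pool.Agent.V11295.ProgAny

/-- the cells which meet a bounded set -/
theorem cells_of_cover {n : ℕ} {B : Set (EuclideanSpace ℝ (Fin n))} (hB : Bornology.IsBounded B)
    {δ : ℝ} (hδ : 0 < δ) : ∃ Z : Finset (Fin n → ℤ),
      (∀ b ∈ B, (fun i => ⌊b i / δ⌋) ∈ Z) ∧ (∀ z ∈ Z, ∃ b ∈ B, (fun i => ⌊b i / δ⌋) = z) ∧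
      Z.card ≤ 3 ^ n * coverNum B δ := by
  classical
  have hfin : ((fun b : EuclideanSpace ℝ (Fin n) => fun i => ⌊b i / δ⌋) '' B).Finite := by
    obtain ⟨C, hC⟩ := hB.subset_closedBall (0 : EuclideanSpace ℝ (Fin n))
    refine (Set.Finite.pi' (t := fun _ : Fin n => Set.Icc (⌊-C / δ⌋) (⌊C / δ⌋))
      fun _ => Set.finite_Icc _ _).subset ?_
    rintro z ⟨b, hb, rfl⟩ i
    have h1 := hC hb
    rw [Metric.mem_closedBall, dist_zero_right, EuclideanSpace.norm_eq] at h1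
    have h2 : |b i| ≤ C := by
      refine le_trans ?_ h1
      refine Real.le_sqrt_of_sq_le ?_
      rw [← Real.norm_eq_abs]
      exact Finset.single_le_sum (f := fun i => ‖b i‖ ^ 2) (fun _ _ => sq_nonneg _)
        (Finset.mem_univ i)
    rw [abs_le] at h2
    exact ⟨Int.floor_le_floor (by gcongr; exact h2.1), Int.floor_le_floor (by gcongr; exact h2.2)⟩
  refine ⟨hfin.toFinset, fun b hb => ?_, fun z hz => ?_, ?_⟩
  · rw [Set.Finite.mem_toFinset]
    exact ⟨b, hb, rfl⟩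
  · rw [Set.Finite.mem_toFinset] at hz
    exact hz
  · obtain ⟨U, hU1, hU2⟩ := exists_cover hB hδ
    have hch : ∀ z : Fin n → ℤ, ∃ b : EuclideanSpace ℝ (Fin n), z ∈ hfin.toFinset →
        b ∈ B ∧ (fun i => ⌊b i / δ⌋) = z := by
      intro z
      by_cases hz : z ∈ hfin.toFinset
      · have h2 := hz
        rw [Set.Finite.mem_toFinset] at h2
        obtain ⟨b, hb, h3⟩ := h2
        exact ⟨b, fun _ => ⟨hb, h3⟩⟩
      · exact ⟨0, fun h => absurd h hz⟩
    choose β hβ using hch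
    have h1 := card_cells (d := n) hδ (fun i => (WithLp.toLp 2) ⁻¹' (U i))
      (fun i x hx y hy l => by
        have h2 := hU1 i _ hx _ hy
        refine le_trans ?_ h2
        rw [EuclideanSpace.dist_eq]
        have h3 : dist (x l) (y l) ^ 2 ≤ ∑ i, dist (x i) (y i) ^ 2 :=
          Finset.single_le_sum (f := fun i => dist (x i) (y i) ^ 2) (fun _ _ => sq_nonneg _)
            (Finset.mem_univ l)
        rw [← Real.dist_eq]
        exact Real.le_sqrt_of_sq_le h3)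
      hfin.toFinset (fun z i => β z i) (fun z hz => by
        have h3 := hU2 (hβ z hz).1
        rw [Set.mem_iUnion] at h3
        exact h3)
    rw [Fintype.card_fin] at h1
    have h4 : (hfin.toFinset.image fun v => fl δ fun i => β v i) = hfin.toFinset := by
      ext z
      constructor
      · intro hz
        obtain ⟨w, hw, rfl⟩ := Finset.mem_image.mp hz
        have h5 : (fl δ fun i => β w i) = w := (hβ w hw).2
        rwa [h5]
      · intro hz
        exact Finset.mem_image.mpr ⟨z, hz, (hβ z hz).2⟩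
    rwa [h4] at h1

/-- `Δ` contains a `k`-term progression with each of the common differences `0, …, M - 1` -/
def Prog (k M : ℕ) (Δ : Finset ℤ) : Prop :=
  ∀ r : ℤ, 0 ≤ r → r < M → ∃ a : ℤ, ∀ j : ℕ, j < k → a + j * r ∈ Δ

theorem Prog.sq_le {k M : ℕ} (hk : 2 ≤ k) {Δ : Finset ℤ} (h : Prog k M Δ) :
    M ≤ Δ.card ^ 2 := by
  classical
  have hch : ∀ r : Fin M, ∃ a : ℤ, a ∈ Δ ∧ a + r ∈ Δ := by
    intro r
    obtain ⟨a, ha⟩ := h r (by positivity) (by exact_mod_cast r.2)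
    exact ⟨a, by simpa using ha 0 (by omega), by simpa using ha 1 (by omega)⟩
  choose a ha1 ha2 using hch
  have h1 : (Finset.univ : Finset (Fin M)).card ≤ (Δ ×ˢ Δ).card := by
    refine Finset.card_le_card_of_injOn (fun r => (a r, a r + (r : ℤ)))
      (fun r _ => Finset.mem_product.mpr ⟨ha1 r, ha2 r⟩) ?_
    intro r _ r' _ hrr
    simp only [Prod.mk.injEq] at hrr
    have h2 : ((r : ℕ) : ℤ) = ((r' : ℕ) : ℤ) := by
      have h3 := hrr.1
      have h4 := hrr.2
      rw [h3] at h4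
      exact add_left_cancel h4
    exact Fin.ext (by exact_mod_cast h2)
  rw [Finset.card_univ, Fintype.card_fin, Finset.card_product] at h1
  rw [sq]
  exact h1

theorem Prog.nonempty {k M : ℕ} (hk : 1 ≤ k) (hM : 1 ≤ M) {Δ : Finset ℤ} (h : Prog k M Δ) :
    Δ.Nonempty := by
  obtain ⟨a, ha⟩ := h 0 le_rfl (by exact_mod_cast hM)
  exact ⟨_, ha 0 hk⟩

/-- powers grow -/
theorem exists_large {ε A : ℝ} (hε : 0 < ε) (M₀ : ℕ) : ∃ M : ℕ, 2 ≤ M ∧ M₀ ≤ M ∧
    A ≤ (M : ℝ) ^ ε := by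
  have h1 : Tendsto (fun M : ℕ => ((M : ℝ)) ^ ε) atTop atTop :=
    (tendsto_rpow_atTop hε).comp tendsto_natCast_atTop_atTop
  obtain ⟨M, h2, h3, h4⟩ := ((eventually_ge_atTop 2).and ((eventually_ge_atTop M₀).and
    (h1.eventually_ge_atTop A))).exists
  exact ⟨M, h2, h3, h4⟩

/-- digits from bounded sets of small dimension -/
theorem exists_digit_set {k : ℕ} {s : ℝ} (h : fM 1 k < (s : EReal)) (M₀ : ℕ) :
    ∃ M : ℕ, 2 ≤ M ∧ M₀ ≤ M ∧ ∃ Δ : Finset ℤ, Prog k M Δ ∧ (Δ.card : ℝ) ≤ (M : ℝ) ^ s := by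
  classical
  unfold fM at h
  rw [iInf_lt_iff] at h
  obtain ⟨B, h⟩ := h
  rw [iInf_lt_iff] at h
  obtain ⟨hB, h⟩ := h
  rw [iInf_lt_iff] at h
  obtain ⟨hP, h⟩ := h
  obtain ⟨y, hy, hys⟩ := EReal.lt_iff_exists_real_btwn.mp h
  have hys' : y < s := by exact_mod_cast hys
  have h3 : ∀ᶠ δ : ℝ in 𝓝[>] (0 : ℝ), ((ratio B δ : ℝ) : EReal) < y :=
    eventually_lt_of_limsup_lt hy (by isBoundedDefault)
  obtain ⟨δ₀, hδ₀, hδ⟩ := mem_nhdsGT_iff_exists_Ioo_subset.mp (h3.and eventually_small)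
  have hδ₀' : (0 : ℝ) < δ₀ := hδ₀
  obtain ⟨M, hM2, hM0, hM3⟩ := exists_large (ε := s - y) (A := 3) (by linarith)
    (max M₀ (⌈1 / δ₀⌉₊ + 1))
  have hMpos : (0 : ℝ) < M := by
    have : 0 < M := by omega
    exact_mod_cast this
  have hMδ : 1 / (M : ℝ) < δ₀ := by
    have h4 : ⌈1 / δ₀⌉₊ + 1 ≤ M := (le_max_right _ _).trans hM0
    have h5 : (1 / δ₀) < M := by
      have h6 := Nat.le_ceil (1 / δ₀)
      have h7 : ((⌈1 / δ₀⌉₊ + 1 : ℕ) : ℝ) ≤ M := by exact_mod_cast h4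
      push_cast at h7
      linarith
    rw [div_lt_iff₀ hδ₀'] at h5
    rw [div_lt_iff₀ hMpos, mul_comm]
    exact h5
  have h4 := hδ (show 1 / (M : ℝ) ∈ Set.Ioo 0 δ₀ from ⟨by positivity, hMδ⟩)
  obtain ⟨h5, h6, h7⟩ := h4
  have h5' : ratio B (1 / (M : ℝ)) < y := by exact_mod_cast h5
  have hlog : 0 < Real.log M := by
    have h8 := log_inv_pos h6 h7
    rwa [one_div_one_div] at h8
  have hN : (coverNum B (1 / (M : ℝ)) : ℝ) ≤ (M : ℝ) ^ y := by
    rcases Nat.eq_zero_or_pos (coverNum B (1 / (M : ℝ))) with h9 | h9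
    · rw [h9, Nat.cast_zero]
      positivity
    · unfold ratio at h5'
      rw [one_div_one_div, div_lt_iff₀ hlog] at h5'
      have h10 : (0 : ℝ) < coverNum B (1 / (M : ℝ)) := by exact_mod_cast h9
      rw [← Real.log_rpow hMpos] at h5'
      exact ((Real.log_lt_log_iff h10 (by positivity)).mp h5').le
  obtain ⟨Z, hZ1, hZ2, hZ3⟩ := cells_of_cover hB (δ := 1 / (M : ℝ)) (by positivity)
  refine ⟨M, hM2, (le_max_left _ _).trans hM0, Z.image fun z => z 0, ?_, ?_⟩
  · intro r hr0 hrM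
    obtain ⟨a, ha⟩ := hP (WithLp.toLp 2 fun _ => (r : ℝ) / M) (fun i => by
      have h8 : (0 : ℝ) ≤ r := by exact_mod_cast hr0
      have h9 : (r : ℝ) ≤ M := by exact_mod_cast hrM.le
      exact ⟨by positivity, by rw [PiLp.toLp_apply, div_le_one hMpos]; exact h9⟩)
    refine ⟨⌊a 0 * M⌋, fun j hj => ?_⟩
    have h8 := hZ1 _ (ha j hj)
    refine Finset.mem_image.mpr ⟨_, h8, ?_⟩
    have h9 : (a + (j : ℝ) • (WithLp.toLp 2 fun _ : Fin 1 => (r : ℝ) / M :
        EuclideanSpace ℝ (Fin 1))) 0 / (1 / (M : ℝ)) = a 0 * M + ((j * r : ℤ) : ℝ) := by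
      simp only [PiLp.add_apply, PiLp.smul_apply, smul_eq_mul]
      push_cast
      field_simp
    dsimp only
    rw [h9, Int.floor_add_intCast]
  · have h8 : ((Z.image fun z => z 0).card : ℝ) ≤ 3 * coverNum B (1 / (M : ℝ)) := by
      have h9 := Finset.card_image_le (s := Z) (f := fun z : Fin 1 → ℤ => z 0)
      have h10 := h9.trans hZ3
      rw [pow_one] at h10
      exact_mod_cast h10
    calc ((Z.image fun z => z 0).card : ℝ) ≤ 3 * coverNum B (1 / (M : ℝ)) := h8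
      _ ≤ (M : ℝ) ^ (s - y) * (M : ℝ) ^ y := by
          refine mul_le_mul hM3 hN (Nat.cast_nonneg _) (by positivity)
      _ = (M : ℝ) ^ s := by rw [← Real.rpow_add hMpos]; congr 1; ring

/-- **The exponent.** -/
theorem exponent {k : ℕ} (hk : 2 ≤ k) : ∃ f : ℝ, 1 / 2 ≤ f ∧ f ≤ 1 ∧ fM 1 k = (f : EReal) ∧
    (∀ M : ℕ, 2 ≤ M → ∀ Δ : Finset ℤ, Prog k M Δ → (M : ℝ) ^ f ≤ Δ.card) ∧
    (∀ s : ℝ, f < s → ∀ M₀ : ℕ, ∃ M : ℕ, 2 ≤ M ∧ M₀ ≤ M ∧ ∃ Δ : Finset ℤ, Prog k M Δ ∧
      (Δ.card : ℝ) ≤ (M : ℝ) ^ s) := by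
  have h1 : fM 1 k ≤ ((1 : ℝ) : EReal) := by
    refine le_of_forall_gt fun x hx => ?_
    obtain ⟨y, hy, hyx⟩ := EReal.lt_iff_exists_real_btwn.mp hx
    refine lt_of_le_of_lt ?_ hyx
    have hy' : 1 < y := by exact_mod_cast hy
    obtain ⟨M, hM2, -, hM3⟩ := exists_large (ε := y - 1) (A := k) (by linarith) 0
    have hMpos : (0 : ℝ) < M := by
      have : 0 < M := by omega
      exact_mod_cast this
    have h2 := fM_le 1 (k := k) (by omega) hM2 (Δ := Finset.Ico 0 ((k : ℤ) * M)) (τ := y)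
      (by linarith) (by
        rw [Int.card_Ico]
        have h3 : (((k : ℤ) * M - 0).toNat : ℝ) = k * M := by
          rw [sub_zero]
          have : ((k : ℤ) * M).toNat = k * M := by
            rw [← Nat.cast_mul, Int.toNat_natCast]
          rw [this]
          push_cast
          rfl
        rw [h3]
        calc (k : ℝ) * M ≤ (M : ℝ) ^ (y - 1) * (M : ℝ) ^ (1 : ℝ) := by
              rw [Real.rpow_one]
              exact mul_le_mul_of_nonneg_right hM3 hMpos.le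
          _ = (M : ℝ) ^ y := by rw [← Real.rpow_add hMpos]; congr 1; ring) (by
        intro r hr0 hrM
        refine ⟨0, fun j hj => ?_⟩
        rw [Finset.mem_Ico, zero_add]
        have h4 : (j : ℤ) < k := by exact_mod_cast hj
        have h5 : (0 : ℤ) ≤ j := by positivity
        constructor
        · positivity
        · nlinarith)
    rwa [Nat.cast_one, one_mul] at h2
  have h2 : ((1 / 2 : ℝ) : EReal) ≤ fM 1 k := by
    by_contra hcon
    push Not at hcon
    obtain ⟨s, h3, h4⟩ := EReal.lt_iff_exists_real_btwn.mp hcon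
    have h4' : s < 1 / 2 := by exact_mod_cast h4
    obtain ⟨M, hM2, -, Δ, hΔ, hΔc⟩ := exists_digit_set h3 0
    have h5 := hΔ.sq_le hk
    have hMpos : (1 : ℝ) < M := by
      have : 1 < M := by omega
      exact_mod_cast this
    have h6 : (M : ℝ) ≤ ((M : ℝ) ^ s) ^ 2 := by
      have h7 : (M : ℝ) ≤ (Δ.card : ℝ) ^ 2 := by exact_mod_cast h5
      exact h7.trans (pow_le_pow_left₀ (Nat.cast_nonneg _) hΔc 2)
    have h7 : ((M : ℝ) ^ s) ^ 2 < M := by
      rw [← Real.rpow_natCast ((M : ℝ) ^ s) 2, ← Real.rpow_mul (by linarith)]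
      calc (M : ℝ) ^ (s * ((2 : ℕ) : ℝ)) < (M : ℝ) ^ (1 : ℝ) := by
            refine Real.rpow_lt_rpow_of_exponent_lt hMpos ?_
            push_cast
            linarith
        _ = M := Real.rpow_one _
    linarith
  have hbot : fM 1 k ≠ ⊥ := by
    intro h
    rw [h] at h2
    exact absurd h2 (by simp)
  have htop : fM 1 k ≠ ⊤ := by
    intro h
    rw [h] at h1
    exact absurd h1 (not_le.mpr (EReal.coe_lt_top 1))
  obtain ⟨f, hf⟩ : ∃ f : ℝ, fM 1 k = (f : EReal) := ⟨(fM 1 k).toReal,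
    (EReal.coe_toReal htop hbot).symm⟩
  rw [hf] at h1 h2
  refine ⟨f, by exact_mod_cast h2, by exact_mod_cast h1, hf, ?_, ?_⟩
  · intro M hM Δ hΔ
    have hMpos : (1 : ℝ) < M := by
      have : 1 < M := by omega
      exact_mod_cast this
    have hlog : 0 < Real.log M := Real.log_pos hMpos
    have hc : 1 ≤ Δ.card := Finset.card_pos.mpr (hΔ.nonempty (by omega) (by omega))
    have hc' : (1 : ℝ) ≤ Δ.card := by exact_mod_cast hc
    have h3 : (M : ℝ) ^ (Real.log Δ.card / Real.log M) = Δ.card := by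
      rw [Real.rpow_def_of_pos (by linarith), mul_div_cancel₀ _ hlog.ne',
        Real.exp_log (by linarith)]
    have h4 := fM_le 1 (k := k) (by omega) hM (Δ := Δ) (τ := Real.log Δ.card / Real.log M)
      (div_nonneg (Real.log_nonneg hc') hlog.le) h3.ge hΔ
    rw [hf, Nat.cast_one, one_mul] at h4
    have h5 : f ≤ Real.log Δ.card / Real.log M := by exact_mod_cast h4
    calc (M : ℝ) ^ f ≤ (M : ℝ) ^ (Real.log Δ.card / Real.log M) :=
          Real.rpow_le_rpow_of_exponent_le hMpos.le h5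
      _ = Δ.card := h3
  · intro s hs M₀
    exact exists_digit_set (by rw [hf]; exact_mod_cast hs) M₀

end Pool.Agent.Helper66x.AK
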