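import Pool.Agent.Helper66x.AK.Digits

/-!
# Random linear maps to `ℤ/p`, translates, and the lifting of progressions
-/

set_option autoImplicit false

open Finset Filter Topology

namespace Pool.Agent.Helper66x.AK

section hash

variable {p : ℕ} [hp : Fact p.Prime] {J : Type} [Fintype J] [DecidableEq J]

/-- a nonzero vector is annihilated by at most `1/p` of the linear functionals -/
theorem card_ker_mul {c : J → ZMod p} (hc : c ≠ 0) :
    ((Finset.univ : Finset (J → ZMod p)).filter fun l => ∑ j, l j * c j = 0).card * p ≤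
      Fintype.card (J → ZMod p) := by
  classical
  obtain ⟨j₀, hj⟩ : ∃ j, c j ≠ 0 := by
    by_contra h
    push Not at h
    exact hc (funext h)
  have hsum : ∀ (l : J → ZMod p) (t : ZMod p), ∑ j, (l + (Pi.single j₀ t : J → ZMod p)) j * c j =
      ∑ j, l j * c j + t * c j₀ := by
    intro l t
    simp only [Pi.add_apply, add_mul, Finset.sum_add_distrib]
    congr 1
    rw [Finset.sum_eq_single j₀]
    · rw [Pi.single_eq_same]
    · intro b _ hb
      rw [Pi.single_eq_of_ne hb, zero_mul]
    · intro h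
      exact absurd (Finset.mem_univ _) h
  have h1 : (((Finset.univ : Finset (J → ZMod p)).filter fun l => ∑ j, l j * c j = 0) ×ˢ
      (Finset.univ : Finset (ZMod p))).card ≤ (Finset.univ : Finset (J → ZMod p)).card := by
    refine Finset.card_le_card_of_injOn (fun q => q.1 + (Pi.single j₀ q.2 : J → ZMod p))
      (fun _ _ => Finset.mem_univ _) ?_
    rintro ⟨l, t⟩ hq ⟨l', t'⟩ hq' h
    simp only [Finset.coe_product, Set.mem_prod, Finset.mem_coe, Finset.mem_filter,
      Finset.mem_univ, true_and, and_true] at hq hq' h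
    have h2 := hsum l t
    have h3 := hsum l' t'
    rw [h] at h2
    rw [h2, hq, hq', zero_add, zero_add] at h3
    have h4 : t = t' := mul_right_cancel₀ hj h3
    subst h4
    have h5 : l = l' := add_right_cancel h
    rw [h5]
  rw [Finset.card_product, Finset.card_univ, Finset.card_univ, ZMod.card] at h1
  exact h1

/-- Cauchy-Schwarz for the fibres of a map -/
theorem card_sq_le {α β : Type*} [DecidableEq α] [DecidableEq β] (A : Finset α) (f : α → β) :
    A.card ^ 2 ≤ (A.image f).card * ((A ×ˢ A).filter fun q => f q.1 = f q.2).card := by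
  have h1 : A.card = ∑ b ∈ A.image f, (A.filter fun a => f a = b).card :=
    Finset.card_eq_sum_card_image f A
  have h2 : ∑ b ∈ A.image f, (A.filter fun a => f a = b).card ^ 2 ≤
      ((A ×ˢ A).filter fun q => f q.1 = f q.2).card := by
    have h3 : ((A ×ˢ A).filter fun q => f q.1 = f q.2).card =
        ∑ b ∈ A.image f, (((A ×ˢ A).filter fun q => f q.1 = f q.2).filter
          fun q => f q.1 = b).card := by
      refine Finset.card_eq_sum_card_fiberwise fun q hq => ?_
      have := (Finset.mem_filter.mp hq).1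
      exact Finset.mem_image_of_mem f (Finset.mem_product.mp this).1
    rw [h3]
    refine Finset.sum_le_sum fun b _ => ?_
    rw [sq, ← Finset.card_product]
    refine Finset.card_le_card fun q hq => ?_
    rw [Finset.mem_product, Finset.mem_filter, Finset.mem_filter] at hq
    rw [Finset.mem_filter, Finset.mem_filter, Finset.mem_product]
    exact ⟨⟨⟨hq.1.1, hq.2.1⟩, by rw [hq.1.2, hq.2.2]⟩, hq.1.2⟩
  calc A.card ^ 2 = (∑ b ∈ A.image f, (A.filter fun a => f a = b).card) ^ 2 := by rw [← h1]
    _ ≤ (A.image f).card * ∑ b ∈ A.image f, (A.filter fun a => f a = b).card ^ 2 :=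
        sq_sum_le_card_mul_sum_sq
    _ ≤ _ := Nat.mul_le_mul_left _ h2

/-- a linear functional which is at most two to one on the average -/
theorem exists_functional (A : Finset (J → ℤ)) (hA : A.card ≤ p) {L : ℕ}
    (hL : ∀ x ∈ A, ∀ j, |x j| ≤ L) (hLp : 2 * L < p) :
    ∃ l : J → ZMod p, A.card ≤ 2 * (A.image fun x => ∑ j, l j * (x j : ZMod p)).card := by
  classical
  set N := A.card with hN
  rcases Nat.eq_zero_or_pos N with h0 | h0
  · exact ⟨0, by rw [h0]; exact Nat.zero_le _⟩
  set φ : (J → ZMod p) → (J → ℤ) → ZMod p := fun l x => ∑ j, l j * (x j : ZMod p) with hφ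
  set P : ℕ := Fintype.card (J → ZMod p) with hP
  -- pairs
  have h1 : ∀ l, ((A ×ˢ A).filter fun q => φ l q.1 = φ l q.2).card =
      ∑ q ∈ A ×ˢ A, if φ l q.1 = φ l q.2 then 1 else 0 := fun l => by
    rw [Finset.card_filter]
  have h2 : ∀ q ∈ A ×ˢ A, q.1 ≠ q.2 →
      (∑ l : J → ZMod p, if φ l q.1 = φ l q.2 then 1 else 0) * p ≤ P := by
    intro q hq hne
    rw [← Finset.card_filter]
    have hc : (fun j => ((q.1 j - q.2 j : ℤ) : ZMod p)) ≠ 0 := by
      obtain ⟨j, hj⟩ := Function.ne_iff.mp hne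
      intro h
      have h3 := congrFun h j
      simp only [Pi.zero_apply] at h3
      rw [ZMod.intCast_zmod_eq_zero_iff_dvd] at h3
      have h4 := hL _ (Finset.mem_product.mp hq).1 j
      have h5 := hL _ (Finset.mem_product.mp hq).2 j
      rw [abs_le] at h4 h5
      have h6 := Int.eq_zero_of_abs_lt_dvd h3 (by rw [abs_lt]; constructor <;> omega)
      exact hj (by omega)
    have h3 := card_ker_mul hc
    refine le_trans (Nat.mul_le_mul_right _ (Finset.card_le_card fun l hl => ?_)) h3
    rw [Finset.mem_filter] at hl ⊢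
    refine ⟨Finset.mem_univ _, ?_⟩
    have h4 := sub_eq_zero.mpr hl.2
    rw [← h4, hφ]
    dsimp only
    rw [← Finset.sum_sub_distrib]
    refine Finset.sum_congr rfl fun j _ => ?_
    push_cast
    ring
  have h3 : ∀ q ∈ A ×ˢ A, (∑ l : J → ZMod p, if φ l q.1 = φ l q.2 then 1 else 0) * p ≤
      P + if q.1 = q.2 then P * p else 0 := by
    intro q hq
    by_cases hne : q.1 = q.2
    · rw [if_pos hne]
      refine le_trans (Nat.mul_le_mul_right _ ?_) (Nat.le_add_left _ _)
      calc (∑ l : J → ZMod p, if φ l q.1 = φ l q.2 then 1 else 0) ≤ ∑ _l : J → ZMod p, 1 :=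
            Finset.sum_le_sum fun l _ => by split_ifs <;> omega
        _ = P := by rw [Finset.sum_const, Finset.card_univ, smul_eq_mul, mul_one]
    · rw [if_neg hne, add_zero]
      exact h2 q hq hne
  have h4 : ∑ q ∈ A ×ˢ A, (P + if q.1 = q.2 then P * p else 0) = N ^ 2 * P + N * (P * p) := by
    rw [Finset.sum_add_distrib, Finset.sum_const, Finset.card_product, smul_eq_mul, ← hN, sq]
    congr 1
    rw [Finset.sum_product]
    simp only [Finset.sum_ite_eq]
    rw [Finset.sum_ite_mem, Finset.inter_self, Finset.sum_const, smul_eq_mul]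
  have h5 : (∑ l : J → ZMod p, ((A ×ˢ A).filter fun q => φ l q.1 = φ l q.2).card) * p ≤
      N ^ 2 * P + N * (P * p) := by
    simp only [h1]
    rw [Finset.sum_comm, Finset.sum_mul, ← h4]
    exact Finset.sum_le_sum h3
  have h6 : ∃ l ∈ (Finset.univ : Finset (J → ZMod p)),
      ((A ×ˢ A).filter fun q => φ l q.1 = φ l q.2).card ≤ 2 * N := by
    refine Finset.exists_le_of_sum_le Finset.univ_nonempty ?_
    rw [Finset.sum_const, Finset.card_univ, smul_eq_mul, ← hP]
    refine Nat.le_of_mul_le_mul_right ?_ hp.out.pos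
    refine h5.trans ?_
    have h7 : N ^ 2 * P ≤ N * (P * p) := by
      calc N ^ 2 * P = N * (P * N) := by ring
        _ ≤ N * (P * p) := Nat.mul_le_mul_left _ (Nat.mul_le_mul_left _ hA)
    calc N ^ 2 * P + N * (P * p) ≤ N * (P * p) + N * (P * p) := Nat.add_le_add_right h7 _
      _ = P * (2 * N) * p := by ring
  obtain ⟨l, -, hl⟩ := h6
  refine ⟨l, ?_⟩
  have h7 := card_sq_le A (φ l)
  have h8 : N * N ≤ (2 * (A.image (φ l)).card) * N := by
    calc N * N = A.card ^ 2 := by rw [sq]
      _ ≤ (A.image (φ l)).card * ((A ×ˢ A).filter fun q => φ l q.1 = φ l q.2).card := h7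
      _ ≤ (A.image (φ l)).card * (2 * N) := Nat.mul_le_mul_left _ hl
      _ = (2 * (A.image (φ l)).card) * N := by ring
  exact Nat.le_of_mul_le_mul_right h8 h0

end hash

/-- few translates of a dense set cover the group -/
theorem cover_translates {p : ℕ} [NeZero p] (A : Finset (ZMod p)) (hA : p ≤ 4 * A.card) (s : ℕ) :
    ∃ T : Finset (ZMod p), T.card ≤ s ∧
      4 ^ s * ((Finset.univ : Finset (ZMod p)).filter fun x => ∀ u ∈ T, x - u ∉ A).card ≤
        3 ^ s * p := by
  classical
  induction s with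
  | zero =>
    refine ⟨∅, by simp, ?_⟩
    rw [pow_zero, pow_zero, one_mul, one_mul]
    refine (Finset.card_le_univ _).trans ?_
    rw [ZMod.card]
  | succ s ih =>
    obtain ⟨T, hT, hU⟩ := ih
    set U := (Finset.univ : Finset (ZMod p)).filter fun x => ∀ u ∈ T, x - u ∉ A with hUdef
    have h1 : ∃ u ∈ (Finset.univ : Finset (ZMod p)),
        U.card ≤ 4 * (U.filter fun x => x - u ∈ A).card := by
      refine Finset.exists_le_of_sum_le Finset.univ_nonempty ?_
      rw [Finset.sum_const, Finset.card_univ, ZMod.card, smul_eq_mul, ← Finset.mul_sum]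
      have h2 : ∑ u : ZMod p, (U.filter fun x => x - u ∈ A).card = U.card * A.card := by
        simp only [Finset.card_filter]
        rw [Finset.sum_comm]
        have h3 : ∀ x ∈ U, (∑ u : ZMod p, if x - u ∈ A then 1 else 0) = A.card := by
          intro x _
          rw [← Finset.card_filter]
          refine Finset.card_bij' (fun u _ => x - u) (fun a _ => x - a) ?_ ?_ ?_ ?_
          · intro u hu
            exact (Finset.mem_filter.mp hu).2
          · intro a ha
            rw [Finset.mem_filter, sub_sub_cancel]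
            exact ⟨Finset.mem_univ _, ha⟩
          · intro u _
            exact sub_sub_cancel x u
          · intro a _
            exact sub_sub_cancel x a
        rw [Finset.sum_congr rfl h3, Finset.sum_const, smul_eq_mul]
      rw [h2]
      calc p * U.card ≤ (4 * A.card) * U.card := Nat.mul_le_mul_right _ hA
        _ = 4 * (U.card * A.card) := by ring
    obtain ⟨u, -, hu⟩ := h1
    refine ⟨insert u T, (Finset.card_insert_le _ _).trans (by omega), ?_⟩
    have h2 : ((Finset.univ : Finset (ZMod p)).filter fun x => ∀ v ∈ insert u T, x - v ∉ A) =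
        U.filter fun x => ¬ (x - u ∈ A) := by
      ext x
      rw [hUdef]
      simp only [Finset.mem_filter, Finset.mem_univ, true_and, Finset.mem_insert, forall_eq_or_imp]
      tauto
    rw [h2]
    have h3 : (U.filter fun x => x - u ∈ A).card + (U.filter fun x => ¬ (x - u ∈ A)).card =
        U.card := Finset.card_filter_add_card_filter_not _
    have h4 : 4 * (U.filter fun x => ¬ (x - u ∈ A)).card ≤ 3 * U.card := by omega
    calc 4 ^ (s + 1) * (U.filter fun x => ¬ (x - u ∈ A)).card =
          4 ^ s * (4 * (U.filter fun x => ¬ (x - u ∈ A)).card) := by rw [pow_succ]; ring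
      _ ≤ 4 ^ s * (3 * U.card) := Nat.mul_le_mul_left _ h4
      _ = 3 * (4 ^ s * U.card) := by ring
      _ ≤ 3 * (3 ^ s * p) := Nat.mul_le_mul_left _ hU
      _ = 3 ^ (s + 1) * p := by rw [pow_succ]; ring

theorem cover_log {p : ℕ} [NeZero p] (A : Finset (ZMod p)) (hA : p ≤ 4 * A.card) :
    ∃ T : Finset (ZMod p), T.card ≤ 3 * (Nat.log 2 p + 1) ∧ ∀ x, ∃ u ∈ T, x - u ∈ A := by
  obtain ⟨T, hT, hU⟩ := cover_translates A hA (3 * (Nat.log 2 p + 1))
  refine ⟨T, hT, ?_⟩
  by_contra hcon
  push Not at hcon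
  obtain ⟨x, hx⟩ := hcon
  have h1 : 1 ≤ ((Finset.univ : Finset (ZMod p)).filter fun x => ∀ u ∈ T, x - u ∉ A).card :=
    Finset.card_pos.mpr ⟨x, Finset.mem_filter.mpr ⟨Finset.mem_univ _, hx⟩⟩
  have h2 : p < 2 ^ (Nat.log 2 p + 1) := Nat.lt_pow_succ_log_self (by norm_num) p
  set t := Nat.log 2 p + 1
  have h3 : 4 ^ (3 * t) ≤ 3 ^ (3 * t) * p := by
    calc 4 ^ (3 * t) = 4 ^ (3 * t) * 1 := (mul_one _).symm
      _ ≤ _ := (Nat.mul_le_mul_left _ h1).trans hU
  have h4 : 3 ^ (3 * t) * p < 3 ^ (3 * t) * 2 ^ t :=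
    Nat.mul_lt_mul_of_pos_left h2 (by positivity)
  have h5 : 3 ^ (3 * t) * 2 ^ t ≤ 4 ^ (3 * t) := by
    rw [pow_mul, pow_mul, ← mul_pow]
    exact Nat.pow_le_pow_left (by norm_num) t
  omega

/-- from progressions modulo `p` to progressions of integers -/
theorem lift_prog {p : ℕ} [NeZero p] {k : ℕ} (hk : 1 ≤ k) (A D' T : Finset (ZMod p))
    (hprog : ∀ y ∈ A, ∃ b : ZMod p, ∀ j : ℕ, j < k → b + j * y ∈ D')
    (hcov : ∀ x : ZMod p, ∃ u ∈ T, x - u ∈ A) :
    ∃ Δ : Finset ℤ, Prog k p Δ ∧ Δ.card ≤ k * (T.card * (k * D'.card)) := by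
  classical
  have hp0 : 0 < p := Nat.pos_of_ne_zero (NeZero.ne p)
  set D'' : Finset (ZMod p) := (T ×ˢ (Finset.range k ×ˢ D')).image fun q =>
    q.2.2 + (q.2.1 : ℕ) * q.1 with hD''
  refine ⟨(Finset.range k ×ˢ D'').image fun q => (q.2.val : ℤ) + (q.1 : ℕ) * (p : ℤ), ?_, ?_⟩
  · intro r hr0 hrp
    obtain ⟨n, rfl⟩ := Int.eq_ofNat_of_zero_le hr0
    have hn : n < p := by exact_mod_cast hrp
    obtain ⟨u, hu, hxu⟩ := hcov (n : ZMod p)
    obtain ⟨b, hb⟩ := hprog _ hxu
    refine ⟨b.val, fun j hj => ?_⟩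
    have h1 : ((b.val + j * n : ℕ) : ZMod p) ∈ D'' := by
      refine Finset.mem_image.mpr ⟨(u, (j, b + j * ((n : ZMod p) - u))),
        Finset.mem_product.mpr ⟨hu, Finset.mem_product.mpr ⟨Finset.mem_range.mpr hj,
          hb j hj⟩⟩, ?_⟩
      push_cast
      rw [ZMod.natCast_zmod_val]
      ring
    have h2 : (b.val + j * n) / p < k := by
      rw [Nat.div_lt_iff_lt_mul hp0]
      have h3 : b.val < p := ZMod.val_lt b
      obtain ⟨k', rfl⟩ : ∃ k', k = k' + 1 := ⟨k - 1, by omega⟩
      have h4 : j * n ≤ k' * p := Nat.mul_le_mul (by omega) hn.le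
      calc b.val + j * n < p + k' * p := by omega
        _ = (k' + 1) * p := by ring
    refine Finset.mem_image.mpr ⟨((b.val + j * n) / p, ((b.val + j * n : ℕ) : ZMod p)),
      Finset.mem_product.mpr ⟨Finset.mem_range.mpr h2, h1⟩, ?_⟩
    dsimp only
    rw [ZMod.val_natCast]
    have h3 := Nat.mod_add_div (b.val + j * n) p
    have h4 : (((b.val + j * n) % p : ℕ) : ℤ) + (((b.val + j * n) / p : ℕ) : ℤ) * (p : ℤ) =
        ((b.val + j * n : ℕ) : ℤ) := by
      rw [← Nat.cast_mul, ← Nat.cast_add, mul_comm ((b.val + j * n) / p) p, h3]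
    rw [h4]
    push_cast
    rfl
  · refine Finset.card_image_le.trans ?_
    rw [Finset.card_product, Finset.card_range]
    refine Nat.mul_le_mul_left _ (Finset.card_image_le.trans ?_)
    rw [Finset.card_product, Finset.card_product, Finset.card_range]

end Pool.Agent.Helper66x.AK
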