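import Pool.Agent.Helper66x.AK.SelfSim
import Pool.Agent.V11295.ProgDim

/-!
# Products of self-similar sets in `ℝ^n`
-/

set_option autoImplicit false

open Finset Filter Topology

namespace Pool.Agent.Helper66x.AK

open Pool.Agent.W46.KK Pool.Agent.V11295.ProgAny

/-- the product of `n` copies of a set of numbers -/
def cubeOf (n : ℕ) (S : Set ℝ) : Set (EuclideanSpace ℝ (Fin n)) := {x | ∀ i, x i ∈ S}

theorem cubeOf_compact (n : ℕ) {S : Set ℝ} (hS : IsCompact S) : IsCompact (cubeOf n S) := by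
  have h1 : IsCompact (Set.pi Set.univ fun _ : Fin n => S) := isCompact_univ_pi fun _ => hS
  have h2 := h1.image (PiLp.continuous_toLp 2 (fun _ : Fin n => ℝ))
  have h3 : cubeOf n S = (WithLp.toLp 2) '' (Set.pi Set.univ fun _ : Fin n => S) := by
    ext x
    constructor
    · intro hx
      refine ⟨fun i => x i, fun i _ => hx i, ?_⟩
      ext i
      simp
    · rintro ⟨y, hy, rfl⟩ i
      exact hy i (Set.mem_univ i)
  rw [h3]
  exact h2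

theorem cubeOf_prog (n : ℕ) {S : Set ℝ} {k : ℕ}
    (h : ∀ x : ℝ, 0 ≤ x → x ≤ 1 → ∃ a : ℝ, ∀ j : ℕ, j < k → a + j * x ∈ S) :
    HasProgressions k (cubeOf n S) := by
  intro r hr
  choose! a ha using h
  refine ⟨WithLp.toLp 2 fun i => a (r i), fun j hj i => ?_⟩
  have := ha (r i) (hr i).1 (hr i).2 j hj
  simpa using this

/-- coverings of a set from the cells of its coordinates -/
theorem cover_cells {n : ℕ} {B : Set (EuclideanSpace ℝ (Fin n))} {σ : ℝ} (hσ : 0 < σ)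
    (F : Fin n → Finset ℤ) (hF : ∀ y ∈ B, ∀ i, ⌊y i / σ⌋ ∈ F i) :
    coverNum B σ ≤ (∏ i, (F i).card) * (4 * (n + 1)) ^ n := by
  classical
  set Q : Finset (EuclideanSpace ℝ (Fin n)) := (Fintype.piFinset F).image fun f =>
    WithLp.toLp 2 fun i => (f i : ℝ) * σ with hQ
  have h1 : coverNum B σ ≤ Q.card * (4 * (n + 1)) ^ n := by
    refine coverNum_le hσ Q fun y hy => ⟨WithLp.toLp 2 fun i => (⌊y i / σ⌋ : ℝ) * σ, ?_, ?_⟩
    · exact Finset.mem_image.mpr ⟨fun i => ⌊y i / σ⌋, Fintype.mem_piFinset.mpr (hF y hy), rfl⟩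
    · intro i
      have h2 := Int.floor_le (y i / σ)
      have h3 := Int.lt_floor_add_one (y i / σ)
      rw [le_div_iff₀ hσ] at h2
      rw [div_lt_iff₀ hσ] at h3
      change |y i - (⌊y i / σ⌋ : ℝ) * σ| < 2 * σ
      rw [abs_lt]
      constructor <;> linarith
  refine h1.trans (Nat.mul_le_mul_right _ (Finset.card_image_le.trans ?_))
  rw [Fintype.card_piFinset]

theorem prod_card_le {n : ℕ} {F : Fin n → Finset ℤ} {A : ℝ} (hF : ∀ i, ((F i).card : ℝ) ≤ A) :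
    ((∏ i, (F i).card : ℕ) : ℝ) ≤ A ^ n := by
  push_cast
  calc ∏ i, ((F i).card : ℝ) ≤ ∏ _i : Fin n, A :=
        Finset.prod_le_prod (fun i _ => Nat.cast_nonneg _) fun i _ => hF i
    _ = A ^ n := by rw [Finset.prod_const, Finset.card_univ, Fintype.card_fin]

/-- **Local bound.** -/
theorem local_bound (n : ℕ) {M : ℕ} (hM : 2 ≤ M) {Δ : Finset ℤ} {τ : ℝ} (hτ : 0 ≤ τ)
    (h : (Δ.card : ℝ) ≤ (M : ℝ) ^ τ) :
    ∃ C : ℝ, ∀ (x : EuclideanSpace ℝ (Fin n)) (ρ σ : ℝ), 0 < σ → σ ≤ ρ → ρ ≤ 1 →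
      (coverNum (cubeOf n (K M Δ) ∩ Metric.closedBall x ρ) σ : ℝ) ≤ C * (ρ / σ) ^ (n * τ) := by
  obtain ⟨C, hC, hF⟩ := cells_local hM hτ h
  refine ⟨C ^ n * (((4 * (n + 1)) ^ n : ℕ) : ℝ), fun x ρ σ hσ hσρ hρ => ?_⟩
  choose F hF1 hF2 using fun i : Fin n => hF (x i) ρ σ hσ hσρ hρ
  have h1 := cover_cells hσ (B := cubeOf n (K M Δ) ∩ Metric.closedBall x ρ) F (by
    rintro y ⟨hy1, hy2⟩ i
    refine hF1 i (y i) (hy1 i) ?_
    rw [Metric.mem_closedBall, EuclideanSpace.dist_eq] at hy2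
    refine le_trans ?_ hy2
    rw [← Real.dist_eq]
    refine Real.le_sqrt_of_sq_le ?_
    exact Finset.single_le_sum (f := fun i => dist (y i) (x i) ^ 2) (fun _ _ => sq_nonneg _)
      (Finset.mem_univ i))
  have h2 : ((∏ i, (F i).card : ℕ) : ℝ) ≤ (C * (ρ / σ) ^ τ) ^ n := prod_card_le hF2
  have hρσ : 0 ≤ ρ / σ := by
    have : 0 < ρ := lt_of_lt_of_le hσ hσρ
    positivity
  have h3 : (C * (ρ / σ) ^ τ) ^ n = C ^ n * (ρ / σ) ^ (n * τ) := by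
    rw [mul_pow, ← Real.rpow_natCast ((ρ / σ) ^ τ) n, ← Real.rpow_mul hρσ, mul_comm τ]
  rw [h3] at h2
  calc (coverNum (cubeOf n (K M Δ) ∩ Metric.closedBall x ρ) σ : ℝ) ≤
        (((∏ i, (F i).card) * (4 * (n + 1)) ^ n : ℕ) : ℝ) := by exact_mod_cast h1
    _ = ((∏ i, (F i).card : ℕ) : ℝ) * (((4 * (n + 1)) ^ n : ℕ) : ℝ) := by rw [Nat.cast_mul]
    _ ≤ (C ^ n * (ρ / σ) ^ (n * τ)) * (((4 * (n + 1)) ^ n : ℕ) : ℝ) :=
        mul_le_mul_of_nonneg_right h2 (Nat.cast_nonneg _)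
    _ = C ^ n * (((4 * (n + 1)) ^ n : ℕ) : ℝ) * (ρ / σ) ^ (n * τ) := by ring

/-- **The whole set.** -/
theorem global_bound (n : ℕ) {M : ℕ} (hM : 2 ≤ M) {Δ : Finset ℤ} {τ : ℝ} (hτ : 0 ≤ τ)
    (h : (Δ.card : ℝ) ≤ (M : ℝ) ^ τ) :
    ∃ C : ℝ, 0 < C ∧ ∀ δ : ℝ, 0 < δ → δ ≤ 1 →
      (coverNum (cubeOf n (K M Δ)) δ : ℝ) ≤ C * (1 / δ) ^ (n * τ) := by
  obtain ⟨C, hC, hF⟩ := cells_all hM hτ h
  refine ⟨C ^ n * (((4 * (n + 1)) ^ n : ℕ) : ℝ), by positivity, fun δ hδ hδ1 => ?_⟩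
  obtain ⟨F, hF1, hF2⟩ := hF δ hδ hδ1
  have h1 := cover_cells hδ (B := cubeOf n (K M Δ)) (fun _ => F)
    fun y hy i => hF1 (y i) (hy i)
  have h2 : ((∏ _i : Fin n, F.card : ℕ) : ℝ) ≤ (C * (1 / δ) ^ τ) ^ n :=
    prod_card_le (F := fun _ => F) fun _ => hF2
  have h3 : (C * (1 / δ) ^ τ) ^ n = C ^ n * (1 / δ) ^ (n * τ) := by
    rw [mul_pow, ← Real.rpow_natCast ((1 / δ) ^ τ) n, ← Real.rpow_mul (by positivity),
      mul_comm τ]
  rw [h3] at h2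
  calc (coverNum (cubeOf n (K M Δ)) δ : ℝ) ≤
        (((∏ _i : Fin n, F.card) * (4 * (n + 1)) ^ n : ℕ) : ℝ) := by exact_mod_cast h1
    _ = ((∏ _i : Fin n, F.card : ℕ) : ℝ) * (((4 * (n + 1)) ^ n : ℕ) : ℝ) := by rw [Nat.cast_mul]
    _ ≤ (C ^ n * (1 / δ) ^ (n * τ)) * (((4 * (n + 1)) ^ n : ℕ) : ℝ) :=
        mul_le_mul_of_nonneg_right h2 (Nat.cast_nonneg _)
    _ = C ^ n * (((4 * (n + 1)) ^ n : ℕ) : ℝ) * (1 / δ) ^ (n * τ) := by ring

/-- an upper bound of the upper Minkowski dimension -/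
theorem upper_le {n : ℕ} {B : Set (EuclideanSpace ℝ (Fin n))} {s C : ℝ} (hC : 0 < C)
    (hs : 0 ≤ s)
    (h : ∀ δ : ℝ, 0 < δ → δ ≤ 1 → (coverNum B δ : ℝ) ≤ C * (1 / δ) ^ s) :
    upperMinkowski B ≤ (s : EReal) := by
  refine le_of_forall_gt fun x hx => ?_
  obtain ⟨y, hy, hyx⟩ := EReal.lt_iff_exists_real_btwn.mp hx
  refine lt_of_le_of_lt ?_ hyx
  have hy' : s < y := by exact_mod_cast hy
  refine limsup_le_of_le (by isBoundedDefault) ?_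
  filter_upwards [eventually_small, eventually_log (|Real.log C| / (y - s))] with δ h1 h2
  have hL := log_inv_pos h1.1 h1.2
  rw [EReal.coe_le_coe_iff, div_le_iff₀ hL]
  rw [div_lt_iff₀ (by linarith)] at h2
  have h3 := h δ h1.1 h1.2.le
  rcases Nat.eq_zero_or_pos (coverNum B δ) with h5 | h5
  · rw [h5, Nat.cast_zero, Real.log_zero]
    have : 0 ≤ y := by linarith
    positivity
  · have h6 : (0 : ℝ) < 1 / δ := by
      have := h1.1
      positivity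
    have h4 := Real.log_le_log (by exact_mod_cast h5) h3
    rw [Real.log_mul hC.ne' (Real.rpow_pos_of_pos h6 s).ne', Real.log_rpow h6] at h4
    have h7 := le_abs_self (Real.log C)
    nlinarith

/-- the bound for `f^M_n(k)` by the number of digits -/
theorem fM_le (n : ℕ) {k : ℕ} (hk : 1 ≤ k) {M : ℕ} (hM : 2 ≤ M) {Δ : Finset ℤ} {τ : ℝ}
    (hτ : 0 ≤ τ) (h : (Δ.card : ℝ) ≤ (M : ℝ) ^ τ)
    (hΔ : ∀ r : ℤ, 0 ≤ r → r < M → ∃ a : ℤ, ∀ j : ℕ, j < k → a + j * r ∈ Δ) :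
    fM n k ≤ ((n * τ : ℝ) : EReal) := by
  have hc := cubeOf_compact n (K_compact hM Δ)
  have h1 : fM n k ≤ upperMinkowski (cubeOf n (K M Δ)) := by
    unfold fM
    refine iInf_le_of_le (cubeOf n (K M Δ)) ?_
    refine iInf_le_of_le hc.isBounded ?_
    exact iInf_le_of_le (cubeOf_prog n fun x h0 h1 => K_prog hM hk hΔ h0 h1) le_rfl
  obtain ⟨C, hC, hb⟩ := global_bound n hM hτ h
  exact h1.trans (upper_le hC (by positivity) hb)

end Pool.Agent.Helper66x.AK
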