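import Pool.Agent.Helper66x.AK.Tensor

/-!
# Sets of real vectors, at every scale; the three dimensions
-/

set_option autoImplicit false

open Finset Filter Topology

namespace Pool.Agent.Helper66x.AK

open Pool.Agent.W46.KK Pool.Agent.V11295.ProgAny

theorem floor_prog (x y : ℝ) (j : ℕ) :
    0 ≤ ⌊x + j * y⌋ - (⌊x⌋ + j * ⌊y⌋) ∧ ⌊x + j * y⌋ - (⌊x⌋ + j * ⌊y⌋) ≤ j := by
  have h1 := Int.floor_le x
  have h2 := Int.lt_floor_add_one x
  have h3 := Int.floor_le y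
  have h4 := Int.lt_floor_add_one y
  have hj : (0 : ℝ) ≤ j := Nat.cast_nonneg _
  constructor
  · have h5 : ⌊x⌋ + j * ⌊y⌋ ≤ ⌊x + j * y⌋ := by
      rw [Int.le_floor]
      push_cast
      nlinarith
    omega
  · have h5 : ⌊x + j * y⌋ < ⌊x⌋ + j * ⌊y⌋ + j + 1 := by
      rw [Int.floor_lt]
      push_cast
      nlinarith
    omega

/-- **Every scale.** -/
theorem real_sets {k : ℕ} (hk : 2 ≤ k) {f : ℝ} (hf0 : 0 < f)
    (hf : ∀ M : ℕ, 2 ≤ M → ∀ Δ : Finset ℤ, Prog k M Δ → (M : ℝ) ^ f ≤ Δ.card) (n : ℕ) :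
    ∃ C : ℝ, 0 < C ∧ ∀ R B : Set (EuclideanSpace ℝ (Fin n)), Bornology.IsBounded B →
      (∀ r ∈ R, ∃ a : EuclideanSpace ℝ (Fin n), ∀ j : ℕ, j < k → a + (j : ℝ) • r ∈ B) →
      ∀ δ : ℝ, 0 < δ → (coverNum R δ : ℝ) ≤ C * (coverNum B δ : ℝ) ^ (1 / f) := by
  classical
  refine ⟨(((4 * (n + 1)) ^ n : ℕ) : ℝ) * (((3 * k) ^ n : ℕ) : ℝ) ^ (1 / f), ?_, ?_⟩
  · have h1 : 0 < (4 * (n + 1)) ^ n := by positivity
    have h2 : 0 < (3 * k) ^ n := by positivity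
    have h3 : (0 : ℝ) < (((4 * (n + 1)) ^ n : ℕ) : ℝ) := by exact_mod_cast h1
    have h4 : (0 : ℝ) < (((3 * k) ^ n : ℕ) : ℝ) := by exact_mod_cast h2
    positivity
  intro R B hB hR δ hδ
  have hRb : Bornology.IsBounded R := by
    refine (hB.sub hB).subset fun r hr => ?_
    obtain ⟨a, ha⟩ := hR r hr
    have h0 := ha 0 (by omega)
    have h1 := ha 1 (by omega)
    refine Set.mem_sub.mpr ⟨_, h1, _, h0, ?_⟩
    push_cast
    module
  obtain ⟨Z, hZ1, -, hZ3⟩ := cells_of_cover hB hδ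
  obtain ⟨Y, hY1, hY2, -⟩ := cells_of_cover hRb hδ
  have hcov : coverNum R δ ≤ Y.card * (4 * (n + 1)) ^ n := by
    refine (coverNum_le hδ (Y.image fun z => WithLp.toLp 2 fun i => (z i : ℝ) * δ)
      fun r hr => ⟨WithLp.toLp 2 fun i => (⌊r i / δ⌋ : ℝ) * δ,
        Finset.mem_image.mpr ⟨_, hY1 r hr, rfl⟩, fun i => ?_⟩).trans
      (Nat.mul_le_mul_right _ Finset.card_image_le)
    have h2 := Int.floor_le (r i / δ)
    have h3 := Int.lt_floor_add_one (r i / δ)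
    rw [le_div_iff₀ hδ] at h2
    rw [div_lt_iff₀ hδ] at h3
    change |r i - (⌊r i / δ⌋ : ℝ) * δ| < 2 * δ
    rw [abs_lt]
    constructor <;> linarith
  rcases Y.eq_empty_or_nonempty with hY | hY
  · rw [hY, Finset.card_empty, zero_mul] at hcov
    have h1 : coverNum R δ = 0 := Nat.le_zero.mp hcov
    rw [h1, Nat.cast_zero]
    positivity
  set D : Finset (Fin n → ℤ) :=
    (Z ×ˢ (Fintype.piFinset fun _ : Fin n => Finset.range k)).image fun q =>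
      fun i => q.1 i - (q.2 i : ℤ) with hD
  have hDc : D.card ≤ (3 * k) ^ n * coverNum B δ := by
    refine Finset.card_image_le.trans ?_
    rw [Finset.card_product, Fintype.card_piFinset, Finset.prod_const, Finset.card_univ,
      Fintype.card_fin, Finset.card_range]
    calc Z.card * k ^ n ≤ (3 ^ n * coverNum B δ) * k ^ n := Nat.mul_le_mul_right _ hZ3
      _ = (3 * k) ^ n * coverNum B δ := by rw [mul_pow]; ring
  have h1 := tensor (by omega : 1 ≤ k) hf0.le hf Y D hY (by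
    intro z hz
    obtain ⟨r, hr, rfl⟩ := hY2 z hz
    obtain ⟨a, ha⟩ := hR r hr
    refine ⟨fun i => ⌊a i / δ⌋, fun j hj => ?_⟩
    have h2 := hZ1 _ (ha j hj)
    have h3 : ∀ i, (a + (j : ℝ) • r) i / δ = a i / δ + j * (r i / δ) := by
      intro i
      simp only [PiLp.add_apply, PiLp.smul_apply, smul_eq_mul]
      ring
    have h4 : ∀ i, 0 ≤ ⌊(a + (j : ℝ) • r) i / δ⌋ - (⌊a i / δ⌋ + j * ⌊r i / δ⌋) ∧
        ⌊(a + (j : ℝ) • r) i / δ⌋ - (⌊a i / δ⌋ + j * ⌊r i / δ⌋) ≤ j := by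
      intro i
      rw [h3]
      exact floor_prog (a i / δ) (r i / δ) j
    refine Finset.mem_image.mpr ⟨(fun i => ⌊(a + (j : ℝ) • r) i / δ⌋, fun i =>
      (⌊(a + (j : ℝ) • r) i / δ⌋ - (⌊a i / δ⌋ + j * ⌊r i / δ⌋)).toNat),
      Finset.mem_product.mpr ⟨h2, Fintype.mem_piFinset.mpr fun i => ?_⟩, funext fun i => ?_⟩
    · have h5 := h4 i
      rw [Finset.mem_range]
      change (⌊(a + (j : ℝ) • r) i / δ⌋ - (⌊a i / δ⌋ + j * ⌊r i / δ⌋)).toNat < k
      omega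
    · change ⌊(a + (j : ℝ) • r) i / δ⌋ -
        ((⌊(a + (j : ℝ) • r) i / δ⌋ - (⌊a i / δ⌋ + j * ⌊r i / δ⌋)).toNat : ℤ) =
        ⌊a i / δ⌋ + (j • fun i => ⌊r i / δ⌋) i
      rw [Int.toNat_of_nonneg (h4 i).1, Pi.smul_apply, nsmul_eq_mul]
      ring)
  have h2 : (Y.card : ℝ) ^ f ≤ (((3 * k) ^ n : ℕ) : ℝ) * coverNum B δ := by
    refine h1.trans ?_
    exact_mod_cast hDc
  have h3 : (Y.card : ℝ) ≤ ((((3 * k) ^ n : ℕ) : ℝ) * coverNum B δ) ^ (1 / f) := by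
    have h4 := Real.rpow_le_rpow (by positivity) h2 (by positivity : 0 ≤ 1 / f)
    rwa [← Real.rpow_mul (Nat.cast_nonneg _), mul_one_div_cancel hf0.ne', Real.rpow_one] at h4
  calc (coverNum R δ : ℝ) ≤ ((Y.card * (4 * (n + 1)) ^ n : ℕ) : ℝ) := by exact_mod_cast hcov
    _ = (((4 * (n + 1)) ^ n : ℕ) : ℝ) * (Y.card : ℝ) := by rw [Nat.cast_mul, mul_comm]
    _ ≤ (((4 * (n + 1)) ^ n : ℕ) : ℝ) * ((((3 * k) ^ n : ℕ) : ℝ) * coverNum B δ) ^ (1 / f) :=
        mul_le_mul_of_nonneg_left h3 (Nat.cast_nonneg _)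
    _ = _ := by
        rw [Real.mul_rpow (Nat.cast_nonneg _) (Nat.cast_nonneg _)]
        ring

/-- the Assouad dimension is at most `s` -/
def AssouadLE {n : ℕ} (s : ℝ) (B : Set (EuclideanSpace ℝ (Fin n))) : Prop :=
  ∃ C : ℝ, ∀ x ∈ B, ∀ ρ σ : ℝ, 0 < σ → σ < ρ →
    (coverNum (B ∩ Metric.closedBall x ρ) σ : ℝ) ≤ C * (ρ / σ) ^ s

theorem coverNum_mono {n : ℕ} {A B : Set (EuclideanSpace ℝ (Fin n))} (hB : Bornology.IsBounded B)
    (hAB : A ⊆ B) {σ δ : ℝ} (hσ : 0 < σ) (h : σ ≤ δ) : coverNum A δ ≤ coverNum B σ := by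
  obtain ⟨U, hU1, hU2⟩ := exists_cover hB hσ
  exact Nat.sInf_le ⟨U, fun i x hx y hy => (hU1 i x hx y hy).trans h, hAB.trans hU2⟩

/-- the Assouad dimension is at least the upper Minkowski dimension -/
theorem upper_le_of_assouad {n : ℕ} {B : Set (EuclideanSpace ℝ (Fin n))}
    (hB : Bornology.IsBounded B) {s : ℝ} (hs : 0 ≤ s) (h : AssouadLE s B) :
    upperMinkowski B ≤ (s : EReal) := by
  rcases B.eq_empty_or_nonempty with hE | ⟨x, hx⟩
  · refine upper_le (C := 1) one_pos hs fun δ hδ _ => ?_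
    have h1 : coverNum B δ = 0 := by
      refine Nat.le_zero.mp (Nat.sInf_le ⟨fun i => ∅, fun i => i.elim0, ?_⟩)
      rw [hE]
      exact Set.empty_subset _
    rw [h1, Nat.cast_zero]
    positivity
  · obtain ⟨C, hC⟩ := h
    obtain ⟨ρ₀, hρ₀⟩ := hB.subset_closedBall x
    set ρ : ℝ := max ρ₀ 2 with hρ
    have hρ2 : 2 ≤ ρ := le_max_right _ _
    have hsub : B ∩ Metric.closedBall x ρ = B := by
      refine Set.inter_eq_left.mpr (hρ₀.trans (Metric.closedBall_subset_closedBall (le_max_left _ _)))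
    refine upper_le (C := (|C| + 1) * ρ ^ s) (by positivity) hs fun δ hδ hδ1 => ?_
    have h1 := hC x hx ρ δ hδ (by linarith)
    rw [hsub] at h1
    have h2 : (ρ / δ) ^ s = ρ ^ s * (1 / δ) ^ s := by
      rw [← Real.mul_rpow (by positivity) (by positivity)]
      congr 1
      ring
    rw [h2] at h1
    refine h1.trans ?_
    have h3 : C ≤ |C| + 1 := by
      have := le_abs_self C
      linarith
    have h4 : 0 ≤ ρ ^ s * (1 / δ) ^ s := by positivity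
    calc C * (ρ ^ s * (1 / δ) ^ s) ≤ (|C| + 1) * (ρ ^ s * (1 / δ) ^ s) :=
          mul_le_mul_of_nonneg_right h3 h4
      _ = (|C| + 1) * ρ ^ s * (1 / δ) ^ s := by ring

/-- the Assouad dimension of products of self-similar sets -/
theorem assouad_K (n : ℕ) {M : ℕ} (hM : 2 ≤ M) {Δ : Finset ℤ} {τ s : ℝ} (hτ : 0 ≤ τ)
    (hs : n * τ ≤ s) (h : (Δ.card : ℝ) ≤ (M : ℝ) ^ τ) : AssouadLE s (cubeOf n (K M Δ)) := by
  have hb : Bornology.IsBounded (cubeOf n (K M Δ)) :=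
    (cubeOf_compact n (K_compact hM Δ)).isBounded
  obtain ⟨C₁, h1⟩ := local_bound n hM hτ h
  obtain ⟨C₂, hC₂, h2⟩ := global_bound n hM hτ h
  refine ⟨|C₁| + C₂, fun x _ ρ σ hσ hσρ => ?_⟩
  have hρ : 0 < ρ := hσ.trans hσρ
  have hnτ : 0 ≤ n * τ := by positivity
  have hr : 1 ≤ ρ / σ := by rw [le_div_iff₀ hσ]; linarith
  have hmono : (ρ / σ) ^ (n * τ) ≤ (ρ / σ) ^ s := Real.rpow_le_rpow_of_exponent_le hr hs
  have hpos : 0 ≤ (ρ / σ) ^ s := by positivity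
  rcases le_or_gt ρ 1 with hρ1 | hρ1
  · refine (h1 x ρ σ hσ hσρ.le hρ1).trans ?_
    calc C₁ * (ρ / σ) ^ (n * τ) ≤ |C₁| * (ρ / σ) ^ (n * τ) :=
          mul_le_mul_of_nonneg_right (le_abs_self _) (by positivity)
      _ ≤ |C₁| * (ρ / σ) ^ s := mul_le_mul_of_nonneg_left hmono (abs_nonneg _)
      _ ≤ (|C₁| + C₂) * (ρ / σ) ^ s := mul_le_mul_of_nonneg_right (by linarith) hpos
  · have h4 : (coverNum (cubeOf n (K M Δ) ∩ Metric.closedBall x ρ) σ : ℝ) ≤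
        C₂ * (ρ / σ) ^ (n * τ) := by
      rcases le_or_gt σ 1 with hσ1 | hσ1
      · have h5 := coverNum_mono (A := cubeOf n (K M Δ) ∩ Metric.closedBall x ρ) hb
          Set.inter_subset_left hσ le_rfl
        calc (coverNum (cubeOf n (K M Δ) ∩ Metric.closedBall x ρ) σ : ℝ) ≤
              (coverNum (cubeOf n (K M Δ)) σ : ℝ) := by exact_mod_cast h5
          _ ≤ C₂ * (1 / σ) ^ (n * τ) := h2 σ hσ hσ1
          _ ≤ C₂ * (ρ / σ) ^ (n * τ) := by
              refine mul_le_mul_of_nonneg_left ?_ hC₂.le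
              refine Real.rpow_le_rpow (by positivity) ?_ hnτ
              gcongr
      · have h5 := coverNum_mono (A := cubeOf n (K M Δ) ∩ Metric.closedBall x ρ) hb
          Set.inter_subset_left one_pos hσ1.le
        calc (coverNum (cubeOf n (K M Δ) ∩ Metric.closedBall x ρ) σ : ℝ) ≤
              (coverNum (cubeOf n (K M Δ)) 1 : ℝ) := by exact_mod_cast h5
          _ ≤ C₂ * (1 / 1) ^ (n * τ) := h2 1 one_pos le_rfl
          _ = C₂ * 1 := by rw [div_one, Real.one_rpow]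
          _ ≤ C₂ * (ρ / σ) ^ (n * τ) :=
              mul_le_mul_of_nonneg_left (Real.one_le_rpow hr hnτ) hC₂.le
    refine h4.trans ?_
    calc C₂ * (ρ / σ) ^ (n * τ) ≤ C₂ * (ρ / σ) ^ s := mul_le_mul_of_nonneg_left hmono hC₂.le
      _ ≤ (|C₁| + C₂) * (ρ / σ) ^ s :=
          mul_le_mul_of_nonneg_right (by linarith [abs_nonneg C₁]) hpos

end Pool.Agent.Helper66x.AK
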