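import Mathlib

/-!
# Self-similar sets with integer digits

`K M Δ` is the set of the numbers `∑ d_i M ^ (-(i + 1))` with digits `d_i` in a finite set `Δ` of
integers.  If `Δ` has at most `M ^ τ` elements, then every interval of length `ρ ≤ 1` meets at most
`C (ρ / η) ^ τ` of the intervals `[z η, (z + 1) η)` which contain points of `K M Δ`.
-/

set_option autoImplicit false

open Finset Filter Topology

namespace Pool.Agent.Helper66x.AK

/-- the value of a sequence of digits in base `M` -/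
noncomputable def val (M : ℕ) (d : ℕ → ℤ) : ℝ := ∑' i, (d i : ℝ) / (M : ℝ) ^ (i + 1)

/-- the self-similar set -/
def K (M : ℕ) (Δ : Finset ℤ) : Set ℝ := {x | ∃ d : ℕ → ℤ, (∀ i, d i ∈ Δ) ∧ x = val M d}

/-- the integer given by the first `m` digits -/
def pre (M : ℕ) (d : ℕ → ℤ) : ℕ → ℤ
  | 0 => 0
  | m + 1 => pre M d m * M + d m

/-- the integers given by words of length `m` -/
def W (M : ℕ) (Δ : Finset ℤ) : ℕ → Finset ℤ
  | 0 => {0}
  | m + 1 => (W M Δ m ×ˢ Δ).image fun q => q.1 * M + q.2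

theorem geo_hasSum {M : ℕ} (hM : 2 ≤ M) :
    HasSum (fun i : ℕ => 1 / (M : ℝ) ^ (i + 1)) (1 / ((M : ℝ) - 1)) := by
  have hM' : (2 : ℝ) ≤ M := by exact_mod_cast hM
  have h0 : (0 : ℝ) < M := by linarith
  have h1 : (0 : ℝ) < (M : ℝ) - 1 := by linarith
  have h := (hasSum_geometric_of_lt_one (r := (M : ℝ)⁻¹) (by positivity)
    (inv_lt_one_of_one_lt₀ (by linarith))).mul_left ((M : ℝ)⁻¹)
  have e1 : (fun i : ℕ => 1 / (M : ℝ) ^ (i + 1)) = fun i : ℕ => (M : ℝ)⁻¹ * (M : ℝ)⁻¹ ^ i := by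
    funext i
    rw [pow_succ, one_div, mul_inv, ← inv_pow, mul_comm]
  have e2 : 1 / ((M : ℝ) - 1) = (M : ℝ)⁻¹ * (1 - (M : ℝ)⁻¹)⁻¹ := by
    have h2 : (1 - (M : ℝ)⁻¹) = ((M : ℝ) - 1) / M := by field_simp
    rw [h2]
    field_simp
  rw [e1, e2]
  exact h

theorem summable_val {M : ℕ} (hM : 2 ≤ M) {L : ℕ} {d : ℕ → ℤ} (hd : ∀ i, |d i| ≤ L) :
    Summable (fun i => (d i : ℝ) / (M : ℝ) ^ (i + 1)) := by
  refine Summable.of_norm_bounded ((geo_hasSum hM).summable.mul_left (L : ℝ)) fun i => ?_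
  have h0 : (0 : ℝ) < (M : ℝ) ^ (i + 1) := by positivity
  rw [Real.norm_eq_abs, abs_div, abs_of_pos h0, div_eq_mul_one_div]
  refine mul_le_mul_of_nonneg_right ?_ (by positivity)
  have h1 := hd i
  have h2 : ((|d i| : ℤ) : ℝ) ≤ ((L : ℤ) : ℝ) := by exact_mod_cast h1
  push_cast at h2
  exact h2

theorem val_bound {M : ℕ} (hM : 2 ≤ M) {L : ℕ} {d : ℕ → ℤ} (hd : ∀ i, |d i| ≤ L) :
    |val M d| ≤ L := by
  have hM' : (2 : ℝ) ≤ M := by exact_mod_cast hM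
  have h1 : HasSum (fun i : ℕ => (L : ℝ) * (1 / (M : ℝ) ^ (i + 1))) (L * (1 / ((M : ℝ) - 1))) :=
    (geo_hasSum hM).mul_left _
  have h2 : ‖∑' i, (d i : ℝ) / (M : ℝ) ^ (i + 1)‖ ≤ L * (1 / ((M : ℝ) - 1)) := by
    refine tsum_of_norm_bounded h1 fun i => ?_
    have h0 : (0 : ℝ) < (M : ℝ) ^ (i + 1) := by positivity
    rw [Real.norm_eq_abs, abs_div, abs_of_pos h0, div_eq_mul_one_div]
    refine mul_le_mul_of_nonneg_right ?_ (by positivity)
    have h1 := hd i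
    have h2 : ((|d i| : ℤ) : ℝ) ≤ ((L : ℤ) : ℝ) := by exact_mod_cast h1
    push_cast at h2
    exact h2
  rw [Real.norm_eq_abs] at h2
  refine h2.trans ?_
  have h3 : 1 / ((M : ℝ) - 1) ≤ 1 := by
    rw [div_le_one (by linarith)]
    linarith
  have h4 : (0 : ℝ) ≤ L := Nat.cast_nonneg _
  nlinarith

theorem val_succ {M : ℕ} (hM : 2 ≤ M) {L : ℕ} {d : ℕ → ℤ} (hd : ∀ i, |d i| ≤ L) :
    (M : ℝ) * val M d = d 0 + val M (fun i => d (i + 1)) := by
  have hM' : (2 : ℝ) ≤ M := by exact_mod_cast hM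
  have h0 : (M : ℝ) ≠ 0 := by positivity
  have h1 := (summable_val hM hd).tsum_eq_zero_add
  unfold val
  rw [h1, mul_add, ← tsum_mul_left]
  congr 1
  · rw [zero_add, pow_one, mul_div_cancel₀ _ h0]
  · refine tsum_congr fun i => ?_
    rw [pow_succ (M : ℝ) (i + 1)]
    field_simp

theorem val_pre {M : ℕ} (hM : 2 ≤ M) {L : ℕ} {d : ℕ → ℤ} (hd : ∀ i, |d i| ≤ L) (m : ℕ) :
    (M : ℝ) ^ m * val M d = pre M d m + val M (fun i => d (i + m)) := by
  induction m with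
  | zero => simp [pre]
  | succ m ih =>
    have h1 := val_succ hM (d := fun i => d (i + m)) (L := L) (fun i => hd _)
    rw [pow_succ, mul_comm ((M : ℝ) ^ m), mul_assoc, ih, mul_add, h1]
    simp only [zero_add, pre]
    push_cast
    have h2 : (fun i => d (i + 1 + m)) = fun i => d (i + (m + 1)) := by
      funext i
      congr 1
      ring
    rw [h2]
    ring

theorem pre_add (M : ℕ) (d : ℕ → ℤ) (m l : ℕ) :
    pre M d (m + l) = pre M d m * (M : ℤ) ^ l + pre M (fun i => d (i + m)) l := by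
  induction l with
  | zero => simp [pre]
  | succ l ih =>
    rw [← add_assoc]
    simp only [pre]
    rw [ih, pow_succ, add_comm l m]
    ring

theorem pre_mem {M : ℕ} {Δ : Finset ℤ} {d : ℕ → ℤ} (hd : ∀ i, d i ∈ Δ) (m : ℕ) :
    pre M d m ∈ W M Δ m := by
  induction m with
  | zero => simp [pre, W]
  | succ m ih =>
    simp only [pre, W]
    exact Finset.mem_image.mpr ⟨(pre M d m, d m), Finset.mem_product.mpr ⟨ih, hd m⟩, rfl⟩

theorem card_W (M : ℕ) (Δ : Finset ℤ) (m : ℕ) : (W M Δ m).card ≤ Δ.card ^ m := by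
  induction m with
  | zero => simp [W]
  | succ m ih =>
    simp only [W]
    refine Finset.card_image_le.trans ?_
    rw [Finset.card_product, pow_succ]
    exact Nat.mul_le_mul_right _ ih

/-- bound of the digits -/
theorem exists_L (Δ : Finset ℤ) : ∃ L : ℕ, ∀ z ∈ Δ, |z| ≤ (L : ℤ) := by
  refine ⟨∑ z ∈ Δ, z.natAbs, fun z hz => ?_⟩
  have h1 : z.natAbs ≤ ∑ z ∈ Δ, z.natAbs :=
    Finset.single_le_sum (f := fun z : ℤ => z.natAbs) (fun _ _ => Nat.zero_le _) hz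
  rw [Int.abs_eq_natAbs]
  exact_mod_cast h1

theorem floor_near {a e : ℝ} {L : ℕ} (h : |e| ≤ L) :
    ⌊a + e⌋ - ⌊a⌋ ∈ Finset.Icc (-((L : ℤ) + 1)) ((L : ℤ) + 1) := by
  rw [abs_le] at h
  have h1 := Int.floor_le a
  have h2 := Int.lt_floor_add_one a
  have h3 := Int.floor_le (a + e)
  have h4 := Int.lt_floor_add_one (a + e)
  rw [Finset.mem_Icc]
  constructor
  · have : (-((L : ℤ) + 1) : ℝ) < ((⌊a + e⌋ - ⌊a⌋ : ℤ) : ℝ) := by push_cast; linarith [h.1]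
    have h5 : (-((L : ℤ) + 1)) < ⌊a + e⌋ - ⌊a⌋ := by exact_mod_cast this
    omega
  · have : ((⌊a + e⌋ - ⌊a⌋ : ℤ) : ℝ) < ((L : ℤ) + 1 : ℝ) := by push_cast; linarith [h.2]
    have h5 : ⌊a + e⌋ - ⌊a⌋ < (L : ℤ) + 1 := by exact_mod_cast this
    omega

/-- the floor values of the points with given prefixes -/
theorem cells {M : ℕ} (hM : 2 ≤ M) {Δ : Finset ℤ} {L : ℕ} (hL : ∀ z ∈ Δ, |z| ≤ (L : ℤ))
    (V : Finset ℤ) (m l : ℕ) {η : ℝ} (hη : 0 < η) (h1 : 1 ≤ (M : ℝ) ^ (m + l) * η) :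
    ∃ F : Finset ℤ, (∀ d : ℕ → ℤ, (∀ i, d i ∈ Δ) → pre M d m ∈ V → ⌊val M d / η⌋ ∈ F) ∧
      F.card ≤ V.card * Δ.card ^ l * (2 * L + 3) := by
  classical
  refine ⟨(V ×ˢ (W M Δ l ×ˢ Finset.Icc (-((L : ℤ) + 1)) ((L : ℤ) + 1))).image fun q =>
    ⌊((q.1 * (M : ℤ) ^ l + q.2.1 : ℤ) : ℝ) / ((M : ℝ) ^ (m + l) * η)⌋ + q.2.2, ?_, ?_⟩
  · intro d hd hV
    have hdL : ∀ i, |d i| ≤ (L : ℤ) := fun i => hL _ (hd i)
    have h2 := val_pre hM hdL (m + l)
    rw [pre_add] at h2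
    set y := val M (fun i => d (i + (m + l))) with hy
    have hyL : |y| ≤ L := val_bound hM fun i => hdL _
    have hpos : (0 : ℝ) < (M : ℝ) ^ (m + l) * η := by linarith
    have hM0 : (0 : ℝ) < (M : ℝ) ^ (m + l) := by
      have : (0 : ℝ) < M := by
        have : 0 < M := by omega
        exact_mod_cast this
      positivity
    have h3 : val M d / η = ((pre M d m * (M : ℤ) ^ l + pre M (fun i => d (i + m)) l : ℤ) : ℝ) /
        ((M : ℝ) ^ (m + l) * η) + y / ((M : ℝ) ^ (m + l) * η) := by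
      rw [← add_div, ← h2]
      field_simp
    have h4 : |y / ((M : ℝ) ^ (m + l) * η)| ≤ L := by
      rw [abs_div, abs_of_pos hpos, div_le_iff₀ hpos]
      have : (0 : ℝ) ≤ L := Nat.cast_nonneg _
      nlinarith
    have h5 := floor_near (a := ((pre M d m * (M : ℤ) ^ l + pre M (fun i => d (i + m)) l : ℤ) :
      ℝ) / ((M : ℝ) ^ (m + l) * η)) h4
    rw [← h3] at h5
    refine Finset.mem_image.mpr ⟨(pre M d m, (pre M (fun i => d (i + m)) l, _)),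
      Finset.mem_product.mpr ⟨hV, Finset.mem_product.mpr ⟨pre_mem (fun i => hd _) l, h5⟩⟩, ?_⟩
    dsimp only
    ring
  · refine Finset.card_image_le.trans ?_
    rw [Finset.card_product, Finset.card_product, Int.card_Icc, ← mul_assoc]
    have h2 : ((L : ℤ) + 1 + 1 - -((L : ℤ) + 1)).toNat = 2 * L + 3 := by omega
    rw [h2]
    exact Nat.mul_le_mul_right _ (Nat.mul_le_mul_left _ (card_W M Δ l))

/-- powers of the base near a number -/
theorem near_pow {M : ℕ} (hM : 2 ≤ M) {η : ℝ} (hη : 0 < η) (hη1 : η ≤ 1) :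
    ∃ m : ℕ, (M : ℝ) ^ m * η ≤ 1 ∧ 1 < (M : ℝ) ^ (m + 1) * η := by
  have hM' : (1 : ℝ) < M := by
    have : 1 < M := by omega
    exact_mod_cast this
  obtain ⟨m, h1, h2⟩ := exists_nat_pow_near (one_le_one_div hη hη1) hM'
  refine ⟨m, ?_, ?_⟩
  · rwa [le_div_iff₀ hη] at h1
  · rwa [div_lt_iff₀ hη] at h2

theorem card_pow_le {M : ℕ} {Δ : Finset ℤ} {τ : ℝ} (h : (Δ.card : ℝ) ≤ (M : ℝ) ^ τ) (l : ℕ) :
    ((Δ.card ^ l : ℕ) : ℝ) ≤ ((M : ℝ) ^ l) ^ τ := by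
  have h0 : (0 : ℝ) ≤ (M : ℝ) := Nat.cast_nonneg _
  rw [← Real.rpow_natCast (M : ℝ) l, ← Real.rpow_mul h0, mul_comm, Real.rpow_mul h0,
    Real.rpow_natCast]
  push_cast
  exact pow_le_pow_left₀ (Nat.cast_nonneg _) h l

/-- **The whole set.** -/
theorem cells_all {M : ℕ} (hM : 2 ≤ M) {Δ : Finset ℤ} {τ : ℝ} (hτ : 0 ≤ τ)
    (h : (Δ.card : ℝ) ≤ (M : ℝ) ^ τ) :
    ∃ C : ℝ, 0 < C ∧ ∀ η : ℝ, 0 < η → η ≤ 1 → ∃ F : Finset ℤ, (∀ z ∈ K M Δ, ⌊z / η⌋ ∈ F) ∧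
      (F.card : ℝ) ≤ C * (1 / η) ^ τ := by
  obtain ⟨L, hL⟩ := exists_L Δ
  have hM' : (0 : ℝ) < M := by
    have : 0 < M := by omega
    exact_mod_cast this
  refine ⟨(2 * L + 3) * (M : ℝ) ^ τ, by positivity, fun η hη hη1 => ?_⟩
  obtain ⟨m, h1, h2⟩ := near_pow hM hη hη1
  obtain ⟨F, hF1, hF2⟩ := cells hM hL {0} 0 (m + 1) hη (by rw [zero_add]; exact h2.le)
  refine ⟨F, ?_, ?_⟩
  · rintro z ⟨d, hd, rfl⟩
    exact hF1 d hd (by simp [pre])
  · rw [Finset.card_singleton, one_mul] at hF2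
    have h3 : (F.card : ℝ) ≤ ((Δ.card ^ (m + 1) : ℕ) : ℝ) * (2 * L + 3) := by exact_mod_cast hF2
    refine h3.trans ?_
    have h4 := card_pow_le h (m + 1)
    have h5 : (M : ℝ) ^ (m + 1) ≤ M * (1 / η) := by
      rw [pow_succ, mul_comm]
      refine mul_le_mul_of_nonneg_left ?_ hM'.le
      rw [le_div_iff₀ hη]
      exact h1
    have h6 : ((M : ℝ) ^ (m + 1)) ^ τ ≤ (M : ℝ) ^ τ * (1 / η) ^ τ := by
      rw [← Real.mul_rpow hM'.le (by positivity)]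
      exact Real.rpow_le_rpow (by positivity) h5 hτ
    calc ((Δ.card ^ (m + 1) : ℕ) : ℝ) * (2 * L + 3) ≤
          ((M : ℝ) ^ τ * (1 / η) ^ τ) * (2 * L + 3) :=
            mul_le_mul_of_nonneg_right (h4.trans h6) (by positivity)
      _ = (2 * L + 3) * (M : ℝ) ^ τ * (1 / η) ^ τ := by ring

/-- **Local bound.** -/
theorem cells_local {M : ℕ} (hM : 2 ≤ M) {Δ : Finset ℤ} {τ : ℝ} (hτ : 0 ≤ τ)
    (h : (Δ.card : ℝ) ≤ (M : ℝ) ^ τ) :
    ∃ C : ℝ, 0 < C ∧ ∀ x ρ η : ℝ, 0 < η → η ≤ ρ → ρ ≤ 1 → ∃ F : Finset ℤ,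
      (∀ z ∈ K M Δ, |z - x| ≤ ρ → ⌊z / η⌋ ∈ F) ∧ (F.card : ℝ) ≤ C * (ρ / η) ^ τ := by
  obtain ⟨L, hL⟩ := exists_L Δ
  have hM1 : (1 : ℝ) ≤ M := by
    have : 1 ≤ M := by omega
    exact_mod_cast this
  have hM' : (0 : ℝ) < M := by linarith
  refine ⟨(2 * L + 4) * (2 * L + 3) * ((M : ℝ) ^ 2) ^ τ, by positivity,
    fun x ρ η hη hηρ hρ1 => ?_⟩
  have hρ : 0 < ρ := lt_of_lt_of_le hη hηρ
  obtain ⟨m₁, a1, a2⟩ := near_pow hM hρ hρ1
  obtain ⟨m, b1, b2⟩ := near_pow hM hη (hηρ.trans hρ1)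
  have hmm : m₁ ≤ m := by
    have h3 : (M : ℝ) ^ m₁ < (M : ℝ) ^ (m + 1) := by
      have h4 : (M : ℝ) ^ m₁ * η ≤ 1 :=
        le_trans (mul_le_mul_of_nonneg_left hηρ (by positivity)) a1
      have h5 : (M : ℝ) ^ m₁ * η < (M : ℝ) ^ (m + 1) * η := by linarith
      exact lt_of_mul_lt_mul_right h5 hη.le
    have h6 := (pow_lt_pow_iff_right₀ (by
      have : 1 < M := by omega
      exact_mod_cast this : (1 : ℝ) < M)).mp h3
    omega
  obtain ⟨l, hl⟩ : ∃ l, m + 1 = m₁ + l := ⟨m + 1 - m₁, by omega⟩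
  set c : ℝ := (M : ℝ) ^ m₁ * x with hc
  set V : Finset ℤ := Finset.Icc (⌊c⌋ - ((L : ℤ) + 1)) (⌊c⌋ + ((L : ℤ) + 2)) with hV
  obtain ⟨F, hF1, hF2⟩ := cells hM hL V m₁ l hη (by rw [← hl]; exact b2.le)
  refine ⟨F, ?_, ?_⟩
  · rintro z ⟨d, hd, rfl⟩ hz
    refine hF1 d hd ?_
    have hdL : ∀ i, |d i| ≤ (L : ℤ) := fun i => hL _ (hd i)
    have h3 := val_pre hM hdL m₁
    have h4 : |val M (fun i => d (i + m₁))| ≤ L := val_bound hM fun i => hdL _
    have h5 : |(M : ℝ) ^ m₁ * val M d - c| ≤ 1 := by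
      rw [hc, ← mul_sub, abs_mul, abs_of_nonneg (by positivity : (0 : ℝ) ≤ (M : ℝ) ^ m₁)]
      exact le_trans (mul_le_mul_of_nonneg_left hz (by positivity)) a1
    rw [h3] at h5
    rw [abs_le] at h4 h5
    have h6 := Int.floor_le c
    have h7 := Int.lt_floor_add_one c
    rw [hV, Finset.mem_Icc]
    constructor
    · have h8 : ((⌊c⌋ - ((L : ℤ) + 2) : ℤ) : ℝ) < (pre M d m₁ : ℝ) + 1 := by
        push_cast
        linarith [h4.1, h4.2, h5.1, h5.2]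
      have h9 : (⌊c⌋ - ((L : ℤ) + 2)) < pre M d m₁ + 1 := by exact_mod_cast h8
      have h10 : ((⌊c⌋ - ((L : ℤ) + 1) : ℤ) : ℝ) ≤ (pre M d m₁ : ℝ) := by
        push_cast
        linarith [h4.1, h4.2, h5.1, h5.2]
      exact_mod_cast h10
    · have h8 : ((pre M d m₁ : ℤ) : ℝ) < ((⌊c⌋ + ((L : ℤ) + 2) : ℤ) : ℝ) := by
        push_cast
        linarith [h4.1, h4.2, h5.1, h5.2]
      have h9 : pre M d m₁ < ⌊c⌋ + ((L : ℤ) + 2) := by exact_mod_cast h8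
      exact h9.le
  · have hVc : V.card = 2 * L + 4 := by
      rw [hV, Int.card_Icc]
      omega
    rw [hVc] at hF2
    have h3 : (F.card : ℝ) ≤ (2 * L + 4) * ((Δ.card ^ l : ℕ) : ℝ) * (2 * L + 3) := by
      exact_mod_cast hF2
    refine h3.trans ?_
    have h4 := card_pow_le h l
    have h5 : (M : ℝ) ^ l ≤ (M : ℝ) ^ 2 * (ρ / η) := by
      have h6 : (M : ℝ) ^ l * (M : ℝ) ^ m₁ = (M : ℝ) ^ (m + 1) := by
        rw [← pow_add, hl, add_comm]
      have h7 : (M : ℝ) ^ (m + 1) ≤ M * (1 / η) := by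
        rw [pow_succ, mul_comm]
        refine mul_le_mul_of_nonneg_left ?_ hM'.le
        rw [le_div_iff₀ hη]
        exact b1
      have h8 : 1 ≤ (M : ℝ) ^ m₁ * (M * ρ) := by
        rw [pow_succ] at a2
        linarith
      calc (M : ℝ) ^ l ≤ (M : ℝ) ^ l * ((M : ℝ) ^ m₁ * (M * ρ)) :=
            le_mul_of_one_le_right (by positivity) h8
        _ = (M : ℝ) ^ (m + 1) * (M * ρ) := by rw [← h6]; ring
        _ ≤ (M * (1 / η)) * (M * ρ) := mul_le_mul_of_nonneg_right h7 (by positivity)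
        _ = (M : ℝ) ^ 2 * (ρ / η) := by ring
    have h6 : ((M : ℝ) ^ l) ^ τ ≤ ((M : ℝ) ^ 2) ^ τ * (ρ / η) ^ τ := by
      rw [← Real.mul_rpow (by positivity) (by positivity)]
      exact Real.rpow_le_rpow (by positivity) h5 hτ
    calc (2 * (L : ℝ) + 4) * ((Δ.card ^ l : ℕ) : ℝ) * (2 * L + 3) ≤
          (2 * (L : ℝ) + 4) * (((M : ℝ) ^ 2) ^ τ * (ρ / η) ^ τ) * (2 * L + 3) := by
            refine mul_le_mul_of_nonneg_right ?_ (by positivity)
            exact mul_le_mul_of_nonneg_left (h4.trans h6) (by positivity)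
      _ = (2 * L + 4) * (2 * L + 3) * ((M : ℝ) ^ 2) ^ τ * (ρ / η) ^ τ := by ring

/-- the self-similar set is compact -/
theorem K_compact {M : ℕ} (hM : 2 ≤ M) (Δ : Finset ℤ) : IsCompact (K M Δ) := by
  obtain ⟨L, hL⟩ := exists_L Δ
  have h1 : K M Δ = Set.range fun w : ℕ → Δ => val M fun i => (w i : ℤ) := by
    ext x
    constructor
    · rintro ⟨d, hd, rfl⟩
      exact ⟨fun i => ⟨d i, hd i⟩, rfl⟩
    · rintro ⟨w, rfl⟩
      exact ⟨fun i => w i, fun i => (w i).2, rfl⟩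
  rw [h1]
  refine isCompact_range ?_
  unfold val
  refine continuous_tsum (u := fun i : ℕ => (L : ℝ) * (1 / (M : ℝ) ^ (i + 1))) (fun i => ?_)
    ((geo_hasSum hM).summable.mul_left (L : ℝ)) fun i w => ?_
  · refine Continuous.div_const ?_ _
    have h2 : Continuous fun z : Δ => (((z : ℤ)) : ℝ) := continuous_of_discreteTopology
    exact h2.comp (continuous_apply i)
  · have h0 : (0 : ℝ) < (M : ℝ) ^ (i + 1) := by
      have : (0 : ℝ) < M := by
        have : 0 < M := by omega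
        exact_mod_cast this
      positivity
    rw [Real.norm_eq_abs, abs_div, abs_of_pos h0, div_eq_mul_one_div]
    refine mul_le_mul_of_nonneg_right ?_ (by positivity)
    have h1 := hL _ (w i).2
    have h2 : ((|(w i : ℤ)| : ℤ) : ℝ) ≤ ((L : ℤ) : ℝ) := by exact_mod_cast h1
    push_cast at h2
    exact h2

/-- digits of a number in `[0, 1]` -/
theorem exists_digits {M : ℕ} (hM : 2 ≤ M) {x : ℝ} (h0 : 0 ≤ x) (h1 : x ≤ 1) :
    ∃ r : ℕ → ℤ, (∀ i, 0 ≤ r i ∧ r i < M) ∧ val M r = x := by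
  have hM' : (2 : ℝ) ≤ M := by exact_mod_cast hM
  rcases lt_or_eq_of_le h1 with h | h
  · have : NeZero M := ⟨by omega⟩
    refine ⟨fun i => ((Real.digits x M i : ℕ) : ℤ), fun i => ⟨by positivity, ?_⟩, ?_⟩
    · have := (Real.digits x M i).2
      dsimp only
      exact_mod_cast this
    · have h3 := Real.ofDigits_digits (b := M) (by omega) (show x ∈ Set.Ico (0 : ℝ) 1 from ⟨h0, h⟩)
      unfold val
      rw [← h3]
      conv_rhs => unfold Real.ofDigits Real.ofDigitsTerm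
      refine tsum_congr fun i => ?_
      rw [h3, div_eq_mul_inv]
      simp
  · refine ⟨fun _ => (M : ℤ) - 1, fun i => ⟨by dsimp only; omega, by dsimp only; omega⟩, ?_⟩
    unfold val
    rw [h]
    have h3 := (geo_hasSum hM).mul_left ((M : ℝ) - 1)
    rw [mul_one_div_cancel (by linarith)] at h3
    rw [← h3.tsum_eq]
    refine tsum_congr fun i => ?_
    push_cast
    ring

/-- progressions in the self-similar set -/
theorem K_prog {M : ℕ} (hM : 2 ≤ M) {Δ : Finset ℤ} {k : ℕ} (hk : 1 ≤ k)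
    (hΔ : ∀ r : ℤ, 0 ≤ r → r < M → ∃ a : ℤ, ∀ j : ℕ, j < k → a + j * r ∈ Δ) {x : ℝ}
    (h0 : 0 ≤ x) (h1 : x ≤ 1) : ∃ a : ℝ, ∀ j : ℕ, j < k → a + j * x ∈ K M Δ := by
  obtain ⟨L, hL⟩ := exists_L Δ
  obtain ⟨r, hr, rfl⟩ := exists_digits hM h0 h1
  choose! α hα using hΔ
  refine ⟨val M fun i => α (r i), fun j hj => ⟨fun i => α (r i) + j * r i,
    fun i => hα (r i) (hr i).1 (hr i).2 j hj, ?_⟩⟩
  have s1 := summable_val hM (L := L) (d := fun i => α (r i)) fun i => by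
    have := hL _ (hα (r i) (hr i).1 (hr i).2 0 (by omega))
    simpa using this
  have s2 := summable_val hM (L := M) (d := r) fun i => by
    rw [abs_of_nonneg (hr i).1]
    exact (hr i).2.le
  unfold val
  rw [← tsum_mul_left, ← s1.tsum_add (s2.mul_left (j : ℝ))]
  refine tsum_congr fun i => ?_
  push_cast
  ring

end Pool.Agent.Helper66x.AK
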