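import Pool.Agent.Helper66x.AK.Hash

/-!
# The exact inequality for finite sets in torsion-free groups
-/

set_option autoImplicit false

open Finset Filter Topology

namespace Pool.Agent.Helper66x.AK

/-- concatenation of vectors -/
def un {m : ℕ} {ι : Type} (x : Fin m → ι → ℤ) : Fin m × ι → ℤ := fun q => x q.1 q.2

theorem un_injective {m : ℕ} {ι : Type} : Function.Injective (un (m := m) (ι := ι)) := by
  intro x y h
  funext i j
  exact congrFun h (i, j)

/-- the inequality for one power -/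
theorem power_step {k : ℕ} (hk : 1 ≤ k) {f : ℝ} (hf0 : 0 ≤ f)
    (hf : ∀ M : ℕ, 2 ≤ M → ∀ Δ : Finset ℤ, Prog k M Δ → (M : ℝ) ^ f ≤ Δ.card)
    {ι : Type} [Fintype ι] [DecidableEq ι] (R D : Finset (ι → ℤ)) (hR : R.Nonempty)
    (h : ∀ r ∈ R, ∃ a : ι → ℤ, ∀ j : ℕ, j < k → a + j • r ∈ D) {L : ℕ}
    (hL : ∀ x ∈ R, ∀ i, |x i| ≤ L) (m : ℕ) (hm : 2 * L ≤ R.card ^ m) :
    ((R.card : ℝ) ^ f) ^ m ≤ k * (3 * (m * R.card + 2) * (k * (D.card : ℝ) ^ m)) := by
  classical
  set N := R.card with hN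
  have hN0 : 0 < N := Finset.card_pos.mpr hR
  have hNm : 0 < N ^ m := pow_pos hN0 m
  obtain ⟨p, hp, hp1, hp2⟩ := Nat.exists_prime_lt_and_le_two_mul (N ^ m) hNm.ne'
  have hpf : Fact p.Prime := ⟨hp⟩
  have hp0 : NeZero p := ⟨hp.ne_zero⟩
  -- powers of the sets
  set Rm : Finset (Fin m × ι → ℤ) := (Fintype.piFinset fun _ : Fin m => R).image un with hRm
  set Dm : Finset (Fin m × ι → ℤ) := (Fintype.piFinset fun _ : Fin m => D).image un with hDm
  have hRc : Rm.card = N ^ m := by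
    rw [hRm, Finset.card_image_of_injective _ un_injective, Fintype.card_piFinset,
      Finset.prod_const, Finset.card_univ, Fintype.card_fin]
  have hDc : Dm.card = D.card ^ m := by
    rw [hDm, Finset.card_image_of_injective _ un_injective, Fintype.card_piFinset,
      Finset.prod_const, Finset.card_univ, Fintype.card_fin]
  obtain ⟨l, hl⟩ := exists_functional (p := p) Rm (by rw [hRc]; exact hp1.le) (L := L) (by
    intro x hx j
    obtain ⟨ρ, hρ, rfl⟩ := Finset.mem_image.mp hx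
    exact hL _ (Fintype.mem_piFinset.mp hρ j.1) j.2) (by omega)
  set φ : (Fin m × ι → ℤ) → ZMod p := fun x => ∑ j, l j * (x j : ZMod p) with hφ
  choose! a ha using h
  have hcov : p ≤ 4 * (Rm.image φ).card := by
    rw [hRc] at hl
    have : N ^ m ≤ 2 * (Rm.image φ).card := hl
    omega
  obtain ⟨T, hT, hT2⟩ := cover_log (Rm.image φ) hcov
  obtain ⟨Δ, hΔ, hΔc⟩ := lift_prog hk (Rm.image φ) (Dm.image φ) T (by
    intro y hy
    obtain ⟨x, hx, rfl⟩ := Finset.mem_image.mp hy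
    obtain ⟨ρ, hρ, rfl⟩ := Finset.mem_image.mp hx
    rw [Fintype.mem_piFinset] at hρ
    refine ⟨φ (un fun i => a (ρ i)), fun j hj => ?_⟩
    refine Finset.mem_image.mpr ⟨un fun i => a (ρ i) + j • ρ i, Finset.mem_image.mpr
      ⟨fun i => a (ρ i) + j • ρ i, Fintype.mem_piFinset.mpr fun i => ha _ (hρ i) j hj, rfl⟩, ?_⟩
    rw [hφ]
    dsimp only
    rw [Finset.mul_sum, ← Finset.sum_add_distrib]
    refine Finset.sum_congr rfl fun q _ => ?_
    have e1 : (un fun i => a (ρ i) + j • ρ i) q = a (ρ q.1) q.2 + (j : ℤ) * ρ q.1 q.2 := by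
      change (a (ρ q.1) + j • ρ q.1) q.2 = _
      rw [Pi.add_apply, Pi.smul_apply, nsmul_eq_mul]
    have e2 : (un fun i => a (ρ i)) q = a (ρ q.1) q.2 := rfl
    have e3 : (un ρ) q = ρ q.1 q.2 := rfl
    rw [e1, e2, e3]
    push_cast
    ring) hT2
  have h1 := hf p hp.two_le Δ hΔ
  have h2 : ((N : ℝ) ^ f) ^ m ≤ (p : ℝ) ^ f := by
    have h3 : ((N : ℝ) ^ f) ^ m = ((N : ℝ) ^ m) ^ f := by
      rw [← Real.rpow_natCast ((N : ℝ) ^ f) m, ← Real.rpow_mul (Nat.cast_nonneg _), mul_comm,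
        Real.rpow_mul (Nat.cast_nonneg _), Real.rpow_natCast]
    rw [h3]
    refine Real.rpow_le_rpow (by positivity) ?_ hf0
    exact_mod_cast hp1.le
  have h3 : T.card ≤ 3 * (m * N + 2) := by
    refine hT.trans (Nat.mul_le_mul_left _ ?_)
    have h4 : p ≤ 2 ^ (1 + m * N) := by
      have h5 : N ^ m ≤ 2 ^ (m * N) := by
        rw [mul_comm, pow_mul]
        exact Nat.pow_le_pow_left Nat.lt_two_pow_self.le m
      calc p ≤ 2 * N ^ m := hp2
        _ ≤ 2 * 2 ^ (m * N) := Nat.mul_le_mul_left _ h5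
        _ = 2 ^ (1 + m * N) := by rw [pow_add, pow_one]
    have h5 := Nat.log_mono_right (b := 2) h4
    rw [Nat.log_pow (by norm_num)] at h5
    omega
  have h4 : Δ.card ≤ k * (3 * (m * N + 2) * (k * D.card ^ m)) := by
    refine hΔc.trans (Nat.mul_le_mul_left _ (Nat.mul_le_mul h3 (Nat.mul_le_mul_left _ ?_)))
    rw [← hDc]
    exact Finset.card_image_le
  have h5 : (Δ.card : ℝ) ≤ k * (3 * (m * N + 2) * (k * (D.card : ℝ) ^ m)) := by
    exact_mod_cast h4
  exact h2.trans (h1.trans h5)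

/-- the exact inequality for vectors of integers -/
theorem tensor {k : ℕ} (hk : 1 ≤ k) {f : ℝ} (hf0 : 0 ≤ f)
    (hf : ∀ M : ℕ, 2 ≤ M → ∀ Δ : Finset ℤ, Prog k M Δ → (M : ℝ) ^ f ≤ Δ.card)
    {ι : Type} [Fintype ι] [DecidableEq ι] (R D : Finset (ι → ℤ)) (hR : R.Nonempty)
    (h : ∀ r ∈ R, ∃ a : ι → ℤ, ∀ j : ℕ, j < k → a + j • r ∈ D) :
    (R.card : ℝ) ^ f ≤ D.card := by
  classical
  have hD1 : 1 ≤ D.card := by
    obtain ⟨r, hr⟩ := hR
    obtain ⟨a, ha⟩ := h r hr
    exact Finset.card_pos.mpr ⟨_, ha 0 hk⟩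
  have hD1' : (1 : ℝ) ≤ D.card := by exact_mod_cast hD1
  rcases Nat.lt_or_ge R.card 2 with hN | hN
  · have h1 : R.card = 1 := by
      have := Finset.card_pos.mpr hR
      omega
    rw [h1, Nat.cast_one, Real.one_rpow]
    exact hD1'
  · by_contra hcon
    push Not at hcon
    obtain ⟨L, hL⟩ : ∃ L : ℕ, ∀ x ∈ R, ∀ i, |x i| ≤ (L : ℤ) := by
      refine ⟨∑ x ∈ R, ∑ i, (x i).natAbs, fun x hx i => ?_⟩
      have h1 : (x i).natAbs ≤ ∑ i, (x i).natAbs :=
        Finset.single_le_sum (f := fun i => (x i).natAbs) (fun _ _ => Nat.zero_le _)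
          (Finset.mem_univ i)
      have h2 : ∑ i, (x i).natAbs ≤ ∑ x ∈ R, ∑ i, (x i).natAbs :=
        Finset.single_le_sum (f := fun x : ι → ℤ => ∑ i, (x i).natAbs)
          (fun _ _ => Nat.zero_le _) hx
      rw [Int.abs_eq_natAbs]
      exact_mod_cast h1.trans h2
    set N := R.card with hNd
    set x : ℝ := (N : ℝ) ^ f / D.card with hx
    have hDpos : (0 : ℝ) < D.card := by linarith
    have hx1 : 1 < x := by
      rw [hx, one_lt_div hDpos]
      exact hcon
    have hx0 : 0 < x := by linarith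
    set c : ℝ := 3 * (k : ℝ) ^ 2 * (N + 2) with hc
    have hk' : (1 : ℝ) ≤ k := by exact_mod_cast hk
    have hc0 : 0 < c := by positivity
    have h1 := tendsto_pow_const_div_const_pow_of_one_lt 1 hx1
    have h2 : ∀ᶠ m : ℕ in atTop, (m : ℝ) ^ 1 / x ^ m < 1 / c :=
      h1.eventually_lt_const (by positivity)
    have h3 : ∀ᶠ m : ℕ in atTop, 2 * L ≤ N ^ m :=
      (tendsto_pow_atTop_atTop_of_one_lt (by omega : 1 < N)).eventually_ge_atTop _
    obtain ⟨m, h2, h3, h4⟩ := (h2.and (h3.and (eventually_ge_atTop 1))).exists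
    have h5 := power_step hk hf0 hf R D hR h hL m h3
    rw [← hNd] at h5
    have hm1 : (1 : ℝ) ≤ m := by exact_mod_cast h4
    have h6 : x ^ m ≤ c * m := by
      rw [hx, div_pow, div_le_iff₀ (by positivity)]
      refine h5.trans ?_
      have h7 : (m : ℝ) * N + 2 ≤ m * (N + 2) := by nlinarith
      calc (k : ℝ) * (3 * (m * N + 2) * (k * (D.card : ℝ) ^ m)) =
            (3 * (k : ℝ) ^ 2 * (D.card : ℝ) ^ m) * (m * N + 2) := by ring
        _ ≤ (3 * (k : ℝ) ^ 2 * (D.card : ℝ) ^ m) * (m * (N + 2)) :=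
            mul_le_mul_of_nonneg_left h7 (by positivity)
        _ = c * m * (D.card : ℝ) ^ m := by rw [hc]; ring
    rw [pow_one, div_lt_div_iff₀ (by positivity) hc0, one_mul] at h2
    linarith

/-- **The exact inequality in torsion-free groups.** -/
theorem tensor_group {k : ℕ} (hk : 1 ≤ k) {f : ℝ} (hf0 : 0 ≤ f)
    (hf : ∀ M : ℕ, 2 ≤ M → ∀ Δ : Finset ℤ, Prog k M Δ → (M : ℝ) ^ f ≤ Δ.card)
    {G : Type} [AddCommGroup G] [IsAddTorsionFree G] (R D : Finset G) (hR : R.Nonempty)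
    (h : ∀ r ∈ R, ∃ a : G, ∀ j : ℕ, j < k → a + j • r ∈ D) :
    (R.card : ℝ) ^ f ≤ D.card := by
  classical
  set S : Submodule ℤ G := Submodule.span ℤ ((R ∪ D : Finset G) : Set G) with hS
  have hfin : Module.Finite ℤ S := Module.Finite.span_of_finite ℤ (Finset.finite_toSet _)
  have hfree : Module.Free ℤ S := inferInstance
  let b := Module.Free.chooseBasis ℤ S
  let e : S ≃ₗ[ℤ] (Module.Free.ChooseBasisIndex ℤ S → ℤ) := b.equivFun
  have hRS : ∀ r ∈ R, r ∈ S := fun r hr => Submodule.subset_span (by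
    simp only [Finset.coe_union]
    exact Or.inl hr)
  have hDS : ∀ r ∈ D, r ∈ S := fun r hr => Submodule.subset_span (by
    simp only [Finset.coe_union]
    exact Or.inr hr)
  let g : G → (Module.Free.ChooseBasisIndex ℤ S → ℤ) := fun x => if hx : x ∈ S then e ⟨x, hx⟩ else 0
  have hg : ∀ x (hx : x ∈ S), g x = e ⟨x, hx⟩ := fun x hx => dif_pos hx
  have hinj : ∀ x ∈ S, ∀ y ∈ S, g x = g y → x = y := by
    intro x hx y hy hxy
    rw [hg x hx, hg y hy] at hxy
    exact congrArg Subtype.val (e.injective hxy)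
  have hcard : (R.image g).card = R.card :=
    Finset.card_image_of_injOn fun x hx y hy => hinj x (hRS x hx) y (hRS y hy)
  have h1 := tensor hk hf0 hf (R.image g) (D.image g) (hR.image g) (by
    intro y hy
    obtain ⟨r, hr, rfl⟩ := Finset.mem_image.mp hy
    obtain ⟨a, ha⟩ := h r hr
    have haS : a ∈ S := by
      have := hDS _ (ha 0 hk)
      simpa using this
    refine ⟨g a, fun j hj => Finset.mem_image.mpr ⟨a + j • r, ha j hj, ?_⟩⟩
    rw [hg a haS, hg r (hRS r hr), hg _ (hDS _ (ha j hj)), ← map_nsmul, ← map_add]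
    congr 1)
  rw [hcard] at h1
  refine h1.trans ?_
  exact_mod_cast Finset.card_image_le

end Pool.Agent.Helper66x.AK
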