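import Pool.Agent.Helper66x.AK.RealSets

/-!
# Different sets for the terms of the progressions, and weights
-/

set_option autoImplicit false

open Finset Filter Topology

namespace Pool.Agent.Helper66x.AK

/-- `D j` contains the `j`-th terms of progressions with all common differences in `R` -/
def Config {G : Type} [AddCommGroup G] {k : ℕ} (R : Finset G) (D : Fin k → Finset G) : Prop :=
  ∀ r ∈ R, ∃ a : G, ∀ j : Fin k, a + (j : ℕ) • r ∈ D j

/-- the vectors `(log |D j| - f log |R|)_j` -/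
def V (k : ℕ) (f : ℝ) : Set (Fin k → ℝ) :=
  {v | ∃ (G : Type) (_ : AddCommGroup G) (_ : IsAddTorsionFree G) (R : Finset G)
    (D : Fin k → Finset G), R.Nonempty ∧ Config R D ∧
    ∀ j, v j = Real.log (D j).card - f * Real.log R.card}

theorem Config.nonempty {G : Type} [AddCommGroup G] {k : ℕ} {R : Finset G}
    {D : Fin k → Finset G} (hR : R.Nonempty) (h : Config R D) (j : Fin k) : (D j).Nonempty := by
  obtain ⟨r, hr⟩ := hR
  obtain ⟨a, ha⟩ := h r hr
  exact ⟨_, ha j⟩

theorem V_zero (k : ℕ) (f : ℝ) : (0 : Fin k → ℝ) ∈ V k f := by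
  refine ⟨ℤ, inferInstance, inferInstance, {0}, fun _ => {0}, by simp, ?_, ?_⟩
  · intro r hr
    rw [Finset.mem_singleton] at hr
    subst hr
    exact ⟨0, fun j => by simp⟩
  · intro j
    simp

theorem V_add {k : ℕ} {f : ℝ} {v v' : Fin k → ℝ} (hv : v ∈ V k f) (hv' : v' ∈ V k f) :
    v + v' ∈ V k f := by
  classical
  obtain ⟨G, _, _, R, D, hR, hc, hv⟩ := hv
  obtain ⟨G', _, _, R', D', hR', hc', hv'⟩ := hv'
  refine ⟨G × G', inferInstance, inferInstance, R ×ˢ R', fun j => D j ×ˢ D' j, hR.product hR',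
    ?_, ?_⟩
  · rintro ⟨r, r'⟩ hr
    rw [Finset.mem_product] at hr
    obtain ⟨a, ha⟩ := hc r hr.1
    obtain ⟨a', ha'⟩ := hc' r' hr.2
    exact ⟨(a, a'), fun j => Finset.mem_product.mpr ⟨ha j, ha' j⟩⟩
  · intro j
    have h1 := (hc.nonempty hR j).card_pos
    have h2 := (hc'.nonempty hR' j).card_pos
    have h3 := hR.card_pos
    have h4 := hR'.card_pos
    rw [Pi.add_apply, hv, hv', Finset.card_product, Finset.card_product, Nat.cast_mul,
      Nat.cast_mul, Real.log_mul (by positivity) (by positivity),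
      Real.log_mul (by positivity) (by positivity)]
    ring

/-- some set is large -/
theorem V_max {k : ℕ} (hk : 1 ≤ k) {f : ℝ} (hf0 : 0 ≤ f)
    (hf : ∀ M : ℕ, 2 ≤ M → ∀ Δ : Finset ℤ, Prog k M Δ → (M : ℝ) ^ f ≤ Δ.card)
    {v : Fin k → ℝ} (hv : v ∈ V k f) : ∃ j, 0 ≤ v j := by
  classical
  obtain ⟨G, _, _, R, D, hR, hc, hv⟩ := hv
  by_contra hcon
  push Not at hcon
  have hRpos : (0 : ℝ) < R.card := by exact_mod_cast hR.card_pos
  have hRf : (0 : ℝ) < (R.card : ℝ) ^ f := by positivity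
  have hlt : ∀ j, ((D j).card : ℝ) < (R.card : ℝ) ^ f := by
    intro j
    have h1 := hcon j
    rw [hv j] at h1
    have h2 : (0 : ℝ) < (D j).card := by exact_mod_cast (hc.nonempty hR j).card_pos
    rw [← Real.log_lt_log_iff h2 hRf, Real.log_rpow hRpos]
    linarith
  -- the maximum
  have hne : (Finset.univ : Finset (Fin k)).Nonempty := ⟨⟨0, by omega⟩, Finset.mem_univ _⟩
  obtain ⟨j₀, -, hj₀⟩ := Finset.exists_max_image (Finset.univ : Finset (Fin k))
    (fun j => (D j).card) hne
  set A : ℕ := (D j₀).card with hA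
  have hA0 : 0 < A := (hc.nonempty hR j₀).card_pos
  have hA' : (0 : ℝ) < A := by exact_mod_cast hA0
  set x : ℝ := (R.card : ℝ) ^ f / A with hx
  have hx1 : 1 < x := by
    rw [hx, one_lt_div hA']
    exact hlt j₀
  obtain ⟨m, hm⟩ := pow_unbounded_of_one_lt (k : ℝ) hx1
  have h1 := tensor_group hk hf0 hf (Fintype.piFinset fun _ : Fin m => R)
    (Finset.univ.biUnion fun j : Fin k => Fintype.piFinset fun _ : Fin m => D j)
    (Fintype.piFinset_nonempty.mpr fun _ => hR) (by
      intro ρ hρ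
      rw [Fintype.mem_piFinset] at hρ
      choose! a ha using hc
      refine ⟨fun i => a (ρ i), fun j hj => ?_⟩
      rw [Finset.mem_biUnion]
      refine ⟨⟨j, hj⟩, Finset.mem_univ _, ?_⟩
      rw [Fintype.mem_piFinset]
      intro i
      exact ha (ρ i) (hρ i) ⟨j, hj⟩)
  rw [Fintype.card_piFinset, Finset.prod_const, Finset.card_univ, Fintype.card_fin] at h1
  have h2 : (Finset.univ.biUnion fun j : Fin k => Fintype.piFinset fun _ : Fin m => D j).card ≤
      k * A ^ m := by
    refine Finset.card_biUnion_le.trans ?_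
    calc ∑ j : Fin k, (Fintype.piFinset fun _ : Fin m => D j).card ≤ ∑ _j : Fin k, A ^ m := by
          refine Finset.sum_le_sum fun j hj => ?_
          rw [Fintype.card_piFinset, Finset.prod_const, Finset.card_univ, Fintype.card_fin]
          exact Nat.pow_le_pow_left (hj₀ j hj) m
      _ = k * A ^ m := by rw [Finset.sum_const, Finset.card_univ, Fintype.card_fin, smul_eq_mul]
  have h3 : (((R.card ^ m : ℕ) : ℝ)) ^ f ≤ k * (A : ℝ) ^ m := by
    refine h1.trans ?_
    exact_mod_cast h2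
  have h4 : (((R.card ^ m : ℕ) : ℝ)) ^ f = ((R.card : ℝ) ^ f) ^ m := by
    rw [Nat.cast_pow, ← Real.rpow_natCast ((R.card : ℝ) ^ f) m, ← Real.rpow_mul (by positivity),
      mul_comm, Real.rpow_mul (by positivity), Real.rpow_natCast]
  rw [h4] at h3
  have h5 : x ^ m ≤ k := by
    rw [hx, div_pow, div_le_iff₀ (by positivity)]
    exact h3
  linarith

theorem V_nsmul {k : ℕ} {f : ℝ} {v : Fin k → ℝ} (hv : v ∈ V k f) (n : ℕ) :
    (n : ℝ) • v ∈ V k f := by
  induction n with
  | zero => rw [Nat.cast_zero, zero_smul]; exact V_zero k f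
  | succ n ih =>
    rw [Nat.cast_succ, add_smul, one_smul]
    exact V_add ih hv

/-- the rational cone generated by `V` -/
def cone (k : ℕ) (f : ℝ) : Set (Fin k → ℝ) :=
  {x | ∃ m : ℕ, 0 < m ∧ (m : ℝ) • x ∈ V k f}

theorem cone_add {k : ℕ} {f : ℝ} {x y : Fin k → ℝ} (hx : x ∈ cone k f) (hy : y ∈ cone k f) :
    x + y ∈ cone k f := by
  obtain ⟨m, hm, hx⟩ := hx
  obtain ⟨n, hn, hy⟩ := hy
  refine ⟨m * n, Nat.mul_pos hm hn, ?_⟩
  have h1 := V_add (V_nsmul hx n) (V_nsmul hy m)
  convert h1 using 1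
  push_cast
  module

theorem cone_rat {k : ℕ} {f : ℝ} {x : Fin k → ℝ} (hx : x ∈ cone k f) {q : ℚ} (hq : 0 ≤ q) :
    (q : ℝ) • x ∈ cone k f := by
  obtain ⟨m, hm, hx⟩ := hx
  refine ⟨m * q.den, Nat.mul_pos hm q.den_pos, ?_⟩
  have h1 := V_nsmul hx q.num.natAbs
  convert h1 using 1
  rw [smul_smul, smul_smul]
  congr 1
  have h2 : ((q.num.natAbs : ℕ) : ℝ) = (q.num : ℝ) := by
    have h : ((q.num.natAbs : ℕ) : ℤ) = q.num := Int.natAbs_of_nonneg (Rat.num_nonneg.mpr hq)
    rw [← Int.cast_natCast (R := ℝ) q.num.natAbs, h]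
  rw [h2]
  have h3 : (q : ℝ) * q.den = q.num := by
    have := Rat.mul_den_eq_num q
    exact_mod_cast this
  push_cast
  rw [← h3]
  ring

theorem cone_closure_convex (k : ℕ) (f : ℝ) : Convex ℝ (closure (cone k f)) := by
  have hadd : ∀ x ∈ closure (cone k f), ∀ y ∈ closure (cone k f), x + y ∈ closure (cone k f) := by
    intro x hx y hy
    exact map_mem_closure₂ continuous_add hx hy fun a ha b hb => cone_add ha hb
  have hsmul : ∀ t : ℝ, 0 ≤ t → ∀ x ∈ closure (cone k f), t • x ∈ closure (cone k f) := by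
    intro t ht
    have h1 : ∀ x ∈ cone k f, t • x ∈ closure (cone k f) := by
      intro x hx
      have h2 : ∀ n : ℕ, ∃ q : ℚ, t < q ∧ (q : ℝ) < t + 1 / ((n : ℝ) + 1) := fun n =>
        exists_rat_btwn (by have : (0 : ℝ) < 1 / ((n : ℝ) + 1) := by positivity
                            linarith)
      choose q hq1 hq2 using h2
      have h3 : Tendsto (fun n => (q n : ℝ)) atTop (𝓝 t) := by
        refine tendsto_of_tendsto_of_tendsto_of_le_of_le tendsto_const_nhds
          (by simpa using tendsto_const_nhds.add (tendsto_one_div_add_atTop_nhds_zero_nat (𝕜 := ℝ)))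
          (fun n => (hq1 n).le) fun n => (hq2 n).le
      refine mem_closure_of_tendsto (h3.smul_const x) (Eventually.of_forall fun n => ?_)
      refine cone_rat hx ?_
      have h4 : (0 : ℝ) ≤ q n := ht.trans (hq1 n).le
      exact_mod_cast h4
    intro x hx
    have h2 : Set.MapsTo (fun x : Fin k → ℝ => t • x) (closure (cone k f))
        (closure (closure (cone k f))) :=
      Set.MapsTo.closure (fun x hx => h1 x hx) (continuous_const_smul t)
    rw [closure_closure] at h2
    exact h2 hx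
  intro x hx y hy a b ha hb _
  exact hadd _ (hsmul a ha x hx) _ (hsmul b hb y hy)

/-- **Weights.** -/
theorem exists_weights {k : ℕ} (hk : 1 ≤ k) {f : ℝ} (hf0 : 0 ≤ f)
    (hf : ∀ M : ℕ, 2 ≤ M → ∀ Δ : Finset ℤ, Prog k M Δ → (M : ℝ) ^ f ≤ Δ.card) :
    ∃ w : Fin k → ℝ, (∀ j, 0 ≤ w j) ∧ ∑ j, w j = 1 ∧ ∀ v ∈ V k f, 0 ≤ ∑ j, w j * v j := by
  classical
  set N : Set (Fin k → ℝ) := {x | ∀ j, x j < 0} with hN
  have hNo : IsOpen N := by
    have : N = ⋂ j, {x : Fin k → ℝ | x j < 0} := by
      ext x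
      simp [hN]
    rw [this]
    exact isOpen_iInter_of_finite fun j => isOpen_lt (continuous_apply j) continuous_const
  have hNc : Convex ℝ N := by
    intro x hx y hy a b ha hb hab j
    have h1 := hx j
    have h2 := hy j
    simp only [Pi.add_apply, Pi.smul_apply, smul_eq_mul]
    rcases eq_or_lt_of_le ha with h | h
    · have : b = 1 := by linarith
      rw [← h, this]
      linarith
    · nlinarith [mul_nonpos_of_nonneg_of_nonpos hb h2.le, mul_neg_of_pos_of_neg h h1]
  have hdisj : Disjoint N (closure (cone k f)) := by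
    refine Disjoint.closure_right ?_ hNo
    rw [Set.disjoint_left]
    rintro x hx ⟨m, hm, hxm⟩
    obtain ⟨j, hj⟩ := V_max hk hf0 hf hxm
    have h1 := hx j
    rw [Pi.smul_apply, smul_eq_mul] at hj
    have h2 : (0 : ℝ) < m := by exact_mod_cast hm
    nlinarith
  obtain ⟨φ, u, hφ1, hφ2⟩ := geometric_hahn_banach_open hNc hNo (cone_closure_convex k f) hdisj
  have hexp : ∀ x : Fin k → ℝ, φ x = ∑ j, φ (Pi.single j 1) * x j := by
    intro x
    have h1 : x = ∑ j, x j • (Pi.single j (1 : ℝ) : Fin k → ℝ) := by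
      ext i
      rw [Finset.sum_apply, Finset.sum_eq_single i]
      · simp
      · intro b _ hb
        simp [Pi.single_eq_of_ne (Ne.symm hb)]
      · intro h
        exact absurd (Finset.mem_univ _) h
    conv_lhs => rw [h1]
    rw [map_sum]
    refine Finset.sum_congr rfl fun j _ => ?_
    rw [map_smul, smul_eq_mul, mul_comm]
  set c : Fin k → ℝ := fun j => φ (Pi.single j 1) with hc
  have hu0 : u ≤ 0 := by
    have h1 := hφ2 0 (subset_closure ⟨1, one_pos, by simpa using V_zero k f⟩)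
    rwa [map_zero] at h1
  -- coordinates are nonnegative
  have hsmall : ∀ x ∈ N, φ x < 0 := fun x hx => (hφ1 x hx).trans_le hu0
  have hc0 : ∀ j, 0 ≤ c j := by
    intro j
    by_contra hcj
    push Not at hcj
    set S : ℝ := ∑ i, |c i| + 1 with hS
    have hSpos : 0 < S := by positivity
    have h1 := hsmall (fun i => if i = j then -1 else -(|c j| / (2 * S))) (by
      intro i
      dsimp only
      split_ifs
      · norm_num
      · have : 0 < |c j| := abs_pos.mpr hcj.ne
        have : 0 < |c j| / (2 * S) := by positivity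
        linarith)
    rw [hexp] at h1
    have h2 : ∑ i, c i * (if i = j then -1 else -(|c j| / (2 * S))) =
        -c j + ∑ i ∈ Finset.univ.erase j, c i * (-(|c j| / (2 * S))) := by
      rw [← Finset.add_sum_erase _ _ (Finset.mem_univ j), if_pos rfl]
      congr 1
      · ring
      · refine Finset.sum_congr rfl fun i hi => ?_
        rw [if_neg (Finset.ne_of_mem_erase hi)]
    change ∑ i, c i * (if i = j then -1 else -(|c j| / (2 * S))) < 0 at h1
    rw [h2, ← Finset.sum_mul] at h1
    have h3 : |∑ i ∈ Finset.univ.erase j, c i| ≤ S := by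
      refine (Finset.abs_sum_le_sum_abs _ _).trans ?_
      have h4 : ∑ i ∈ Finset.univ.erase j, |c i| ≤ ∑ i, |c i| :=
        Finset.sum_le_sum_of_subset_of_nonneg (Finset.erase_subset _ _)
          fun _ _ _ => abs_nonneg _
      linarith
    have h4 : (∑ i ∈ Finset.univ.erase j, c i) * (-(|c j| / (2 * S))) ≥ -(|c j| / 2) := by
      have h5 : (∑ i ∈ Finset.univ.erase j, c i) * (|c j| / (2 * S)) ≤ S * (|c j| / (2 * S)) :=
        mul_le_mul_of_nonneg_right ((le_abs_self _).trans h3) (by positivity)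
      have h6 : S * (|c j| / (2 * S)) = |c j| / 2 := by field_simp
      linarith
    have h5 : |c j| = -c j := abs_of_neg hcj
    linarith
  have hpos : 0 < ∑ j, c j := by
    have h1 := hsmall (fun _ => -1) (fun j => by norm_num)
    rw [hexp] at h1
    change ∑ j, c j * -1 < 0 at h1
    rw [← Finset.sum_mul] at h1
    linarith
  have hu : 0 ≤ u := by
    by_contra hneg
    push Not at hneg
    have h1 := hφ1 (fun _ => u / (2 * ∑ j, c j)) (fun j => by
      exact div_neg_of_neg_of_pos hneg (by positivity))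
    rw [hexp] at h1
    change ∑ j, c j * (u / (2 * ∑ j, c j)) < u at h1
    rw [← Finset.sum_mul] at h1
    have h2 : (∑ j, c j) * (u / (2 * ∑ j, c j)) = u / 2 := by field_simp
    rw [h2] at h1
    linarith
  refine ⟨fun j => c j / ∑ j, c j, fun j => div_nonneg (hc0 j) hpos.le, ?_, ?_⟩
  · rw [← Finset.sum_div, div_self hpos.ne']
  · intro v hv
    have h1 := hφ2 v (subset_closure ⟨1, one_pos, by simpa using hv⟩)
    rw [hexp] at h1
    have h2 : ∑ j, c j / (∑ j, c j) * v j = (∑ j, c j * v j) / ∑ j, c j := by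
      rw [Finset.sum_div]
      refine Finset.sum_congr rfl fun j _ => ?_
      ring
    dsimp only
    rw [h2]
    exact div_nonneg (hu.trans h1) hpos.le

/-- the weighted inequality -/
theorem weighted {k : ℕ} {f : ℝ} {w : Fin k → ℝ} (hw1 : ∑ j, w j = 1)
    (hV : ∀ v ∈ V k f, 0 ≤ ∑ j, w j * v j) {G : Type} [AddCommGroup G] [IsAddTorsionFree G]
    (R : Finset G) (D : Fin k → Finset G) (hR : R.Nonempty) (h : Config R D) :
    (R.card : ℝ) ^ f ≤ ∏ j, ((D j).card : ℝ) ^ w j := by
  have h1 := hV (fun j => Real.log (D j).card - f * Real.log R.card)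
    ⟨G, inferInstance, inferInstance, R, D, hR, h, fun _ => rfl⟩
  have hRpos : (0 : ℝ) < R.card := by exact_mod_cast hR.card_pos
  have hDpos : ∀ j, (0 : ℝ) < (D j).card := fun j => by
    exact_mod_cast (h.nonempty hR j).card_pos
  have h2 : ∑ j, w j * (Real.log (D j).card - f * Real.log R.card) =
      ∑ j, w j * Real.log (D j).card - f * Real.log R.card := by
    simp only [mul_sub, Finset.sum_sub_distrib, ← Finset.sum_mul]
    rw [hw1, one_mul]
  rw [h2] at h1
  have h3 : Real.log (∏ j, ((D j).card : ℝ) ^ w j) = ∑ j, w j * Real.log (D j).card := by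
    rw [Real.log_prod fun j _ => (Real.rpow_pos_of_pos (hDpos j) _).ne']
    refine Finset.sum_congr rfl fun j _ => ?_
    rw [Real.log_rpow (hDpos j)]
  have h4 : 0 < ∏ j, ((D j).card : ℝ) ^ w j :=
    Finset.prod_pos fun j _ => Real.rpow_pos_of_pos (hDpos j) _
  rw [← Real.log_le_log_iff (by positivity) h4, Real.log_rpow hRpos, h3]
  linarith

/-- reversal of the progressions -/
theorem V_rev {k : ℕ} {f : ℝ} {v : Fin k → ℝ} (hv : v ∈ V k f) :
    (fun j => v j.rev) ∈ V k f := by
  classical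
  obtain ⟨G, _, _, R, D, hR, hc, hv⟩ := hv
  refine ⟨G, inferInstance, inferInstance, R.image fun r => -r, fun j => D j.rev, hR.image _,
    ?_, ?_⟩
  · intro r hr
    obtain ⟨r, hr', rfl⟩ := Finset.mem_image.mp hr
    obtain ⟨a, ha⟩ := hc r hr'
    refine ⟨a + (k - 1) • r, fun j => ?_⟩
    have h1 := ha j.rev
    have h2 : k - 1 = (j : ℕ) + (j.rev : ℕ) := by
      have := j.2
      rw [Fin.val_rev]
      omega
    rw [h2]
    convert h1 using 1
    rw [add_smul, smul_neg]
    abel
  · intro j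
    dsimp only
    rw [hv, Finset.card_image_of_injective _ neg_injective]

/-- **Symmetric weights.** -/
theorem exists_weights_symm {k : ℕ} (hk : 1 ≤ k) {f : ℝ} (hf0 : 0 ≤ f)
    (hf : ∀ M : ℕ, 2 ≤ M → ∀ Δ : Finset ℤ, Prog k M Δ → (M : ℝ) ^ f ≤ Δ.card) :
    ∃ w : Fin k → ℝ, (∀ j, 0 ≤ w j) ∧ (∀ j : Fin k, w j.rev = w j) ∧ ∑ j, w j = 1 ∧
      ∀ v ∈ V k f, 0 ≤ ∑ j, w j * v j := by
  obtain ⟨w, h1, h2, h3⟩ := exists_weights hk hf0 hf
  have hrev : ∀ u : Fin k → ℝ, ∑ j : Fin k, u j.rev = ∑ j, u j := fun u =>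
    Equiv.sum_comp Fin.revPerm u
  refine ⟨fun j => (w j + w j.rev) / 2, fun j => ?_, fun j => ?_, ?_, fun v hv => ?_⟩
  · have := h1 j
    have := h1 j.rev
    positivity
  · dsimp only
    rw [Fin.rev_rev, add_comm]
  · rw [← Finset.sum_div, Finset.sum_add_distrib, hrev w, h2]
    norm_num
  · have h4 := h3 v hv
    have h5 := h3 _ (V_rev hv)
    have h6 : ∑ j : Fin k, w j * v j.rev = ∑ j : Fin k, w j.rev * v j := by
      rw [← hrev fun j => w j * v j.rev]
      refine Finset.sum_congr rfl fun j _ => ?_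
      rw [Fin.rev_rev]
    rw [h6] at h5
    have h7 : ∑ j : Fin k, (w j + w j.rev) / 2 * v j =
        (∑ j, w j * v j + ∑ j : Fin k, w j.rev * v j) / 2 := by
      rw [← Finset.sum_add_distrib, Finset.sum_div]
      refine Finset.sum_congr rfl fun j _ => ?_
      ring
    rw [h7]
    linarith

end Pool.Agent.Helper66x.AK
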